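import Pool.Agent.PRc.Delta

/-!
# First-order relations over prime fields are definable

`PRQ P`: the relation `P` (one for each field) is generated from decidable relations `PRD` by negation,
conjunction and quantification over vectors of field elements. Over prime fields, with definable
arguments, such relations are bounded formulas.
-/

set_option autoImplicit false

namespace Pool.Agent.PRc

open Polynomial Pool.Agent.Grz Pool.Agent.PTr
open scoped Classical

/-- first-order relations -/
inductive PRQ : {ι : Type} → FR ι → Prop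
  | base {ι : Type} {P : FR ι} : PRD P → PRQ P
  | not {ι : Type} {P : FR ι} : PRQ P → PRQ (fun k _ x => ¬ P k x)
  | and {ι : Type} {P Q : FR ι} : PRQ P → PRQ Q → PRQ (fun k _ x => P k x ∧ Q k x)
  | ex {ι κ : Type} [Finite κ] {P : FR (ι ⊕ κ)} : PRQ P →
      PRQ (fun k _ (x : ι → k) => ∃ z : κ → k, P k (Sum.elim x z))

theorem PRQ.congr {ι : Type} {P Q : FR ι} (hP : PRQ P)
    (h : ∀ (k : Type) [Field k] (x : ι → k), P k x ↔ Q k x) : PRQ Q := by
  have e : P = Q := by
    funext k _ x
    exact propext (h k x)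
  rwa [← e]

theorem PRQ.or {ι : Type} {P Q : FR ι} (hP : PRQ P) (hQ : PRQ Q) :
    PRQ (fun k _ x => P k x ∨ Q k x) :=
  ((hP.not.and hQ.not).not).congr fun k _ x => by tauto

theorem PRQ.imp {ι : Type} {P Q : FR ι} (hP : PRQ P) (hQ : PRQ Q) :
    PRQ (fun k _ x => P k x → Q k x) :=
  ((hP.and hQ.not).not).congr fun k _ x => by tauto

theorem PRQ.iff {ι : Type} {P Q : FR ι} (hP : PRQ P) (hQ : PRQ Q) :
    PRQ (fun k _ x => P k x ↔ Q k x) :=
  ((hP.imp hQ).and (hQ.imp hP)).congr fun k _ x => by tauto

theorem PRQ.all {ι κ : Type} [Finite κ] {P : FR (ι ⊕ κ)} (hP : PRQ P) :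
    PRQ (fun k _ (x : ι → k) => ∀ z : κ → k, P k (Sum.elim x z)) :=
  (hP.not.ex.not).congr fun k _ x => by
    push Not
    rfl

theorem PRQ.true {ι : Type} : PRQ (fun _ _ (_ : ι → _) => True) := by
  refine PRQ.base ?_
  refine (PRF.one (ι := ι)).congr fun k _ x => ?_
  rw [if_pos trivial]

theorem PRQ.finAll {ι : Type} {α : Type*} (s : Finset α) {P : α → FR ι}
    (hP : ∀ a ∈ s, PRQ (P a)) : PRQ (fun k _ x => ∀ a ∈ s, P a k x) := by
  classical
  induction s using Finset.induction_on with
  | empty => exact PRQ.true.congr fun k _ x => by simp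
  | insert a s ha ih =>
    refine ((hP a (Finset.mem_insert_self a s)).and
      (ih fun b hb => hP b (Finset.mem_insert_of_mem hb))).congr fun k _ x => ?_
    simp

theorem PRQ.allF {ι : Type} {α : Type*} [Finite α] {P : α → FR ι}
    (hP : ∀ a, PRQ (P a)) : PRQ (fun k _ x => ∀ a, P a k x) := by
  have := Fintype.ofFinite α
  exact (PRQ.finAll Finset.univ (P := P) fun a _ => hP a).congr fun k _ x => by simp

theorem PRQ.exF {ι : Type} {α : Type*} [Finite α] {P : α → FR ι}
    (hP : ∀ a, PRQ (P a)) : PRQ (fun k _ x => ∃ a, P a k x) :=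
  ((PRQ.allF fun a => (hP a).not).not).congr fun k _ x => by
    push Not
    rfl

/-- an equation between piecewise rational functions -/
theorem PRQ.eq {ι : Type} {F G : FF ι} (hF : PRF F) (hG : PRF G) :
    PRQ (fun k _ x => F k x = G k x) := by
  refine PRQ.base ?_
  refine (PRF.ite (hF.sub hG) PRF.one PRF.zero).congr fun k _ x => ?_
  by_cases h : F k x = G k x
  · rw [if_pos h, if_pos (sub_eq_zero.2 h)]
  · rw [if_neg h, if_neg (sub_ne_zero.2 h)]

/-- substitution of piecewise rational functions -/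
theorem PRQ.comp {ι : Type} {P : FR ι} (hP : PRQ P) : ∀ {κ : Type} {G : ι → FF κ},
    (∀ j, PRF (G j)) → PRQ (fun k _ x => P k (fun j => G j k x)) := by
  induction hP with
  | base h =>
    intro κ G hG
    exact PRQ.base (PRF.comp h hG)
  | not _ ih =>
    intro κ G hG
    exact (ih hG).not
  | and _ _ ihP ihQ =>
    intro κ G hG
    exact (ihP hG).and (ihQ hG)
  | @ex ι μ _ P _ ih =>
    intro κ G hG
    have h1 := ih (κ := κ ⊕ μ) (G := Sum.elim
      (fun j => fun k _ (x : κ ⊕ μ → k) => G j k (fun i => x (Sum.inl i)))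
      (fun i => fun k _ (x : κ ⊕ μ → k) => x (Sum.inr i))) (by
      rintro (j | i)
      · exact (hG j).comp (G := fun i => fun k _ (x : κ ⊕ μ → k) => x (Sum.inl i))
          fun i => PRF.var (Sum.inl i)
      · exact PRF.var (Sum.inr i))
    refine h1.ex.congr fun k _ x => exists_congr fun z => ?_
    refine iff_of_eq (congrArg (P k) ?_)
    funext j
    rcases j with j | i <;> rfl

/-- **First-order relations over prime fields are bounded formulas.** -/
theorem prq_delta {ι : Type} {P : FR ι} (hP : PRQ P) : ∀ [Finite ι] {n : ℕ}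
    {p : (Fin n → ℕ) → ℕ} {a : ι → (Fin n → ℕ) → ℕ}, DFun n p → (∀ i, DFun n (a i)) →
    Delta0 n (fun v => ∃ h : (p v).Prime, haveI := Fact.mk h;
      P (ZMod (p v)) (fun i => (a i v : ZMod (p v)))) := by
  induction hP with
  | base h =>
    intro _ n p a hp ha
    have := Fintype.ofFinite
    exact prd_delta' h hp ha
  | not _ ih =>
    intro _ n p a hp ha
    refine ((ECD.delta_prime hp).and (ih hp ha).not).of_iff fun v => ?_
    constructor
    · rintro ⟨h, h1⟩
      exact ⟨h, fun ⟨_, h2⟩ => h1 h2⟩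
    · rintro ⟨h, h1⟩
      exact ⟨h, fun h2 => h1 ⟨h, h2⟩⟩
  | and _ _ ihP ihQ =>
    intro _ n p a hp ha
    refine ((ihP hp ha).and (ihQ hp ha)).of_iff fun v => ?_
    constructor
    · rintro ⟨h, h1, h2⟩
      exact ⟨⟨h, h1⟩, ⟨h, h2⟩⟩
    · rintro ⟨⟨h, h1⟩, ⟨_, h2⟩⟩
      exact ⟨h, h1, h2⟩
  | @ex ι κ _ P _ ih =>
    intro _ n p a hp ha
    obtain ⟨D, ⟨e⟩⟩ := Finite.exists_equiv_fin κ
    have h1 := Delta0.bexVec (D := D) (n := n) (b := p) hp (P := fun x v =>
      ∃ h : (p v).Prime, haveI := Fact.mk h; P (ZMod (p v))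
        (Sum.elim (fun i => (a i v : ZMod (p v))) fun j => (x (e j) : ZMod (p v)))) (by
      intro m x v hx hv
      have h2 := ih (n := m) (p := fun w => p fun i => v i w)
        (a := Sum.elim (fun i w => a i fun i => v i w) (fun j w => x (e j) w))
        (hp.comp hv) (by
          rintro (i | j)
          · exact (ha i).comp hv
          · exact hx _)
      refine h2.of_iff fun w => exists_congr fun h => ?_
      have := Fact.mk h
      refine iff_of_eq (congrArg (P _) ?_)
      funext j
      rcases j with i | j <;> rfl)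
    refine h1.of_iff fun v => ?_
    symm
    constructor
    · rintro ⟨x, -, h, hx⟩
      exact ⟨h, _, hx⟩
    · rintro ⟨h, z, hz⟩
      have := Fact.mk h
      refine ⟨fun j => (z (e.symm j)).val, fun j => (ZMod.val_lt _).le, h, ?_⟩
      have e1 : (fun j => (((z (e.symm (e j))).val : ℕ) : ZMod (p v))) = z := by
        funext j
        rw [ZMod.natCast_zmod_val, Equiv.symm_apply_apply]
      rw [e1]
      exact hz

end Pool.Agent.PRc
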