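import Pool.Agent.PRc.Gcd

/-!
# Package PRc-Ext: restriction of scalars

`K = k[T]/(h)`, `h` monic irreducible of degree `s ≥ 1`. Elements of `K` are given by `s` coordinates
with respect to `1, T, ..., T^(s-1)`. Every piecewise rational function over `K` is given by
piecewise rational functions over `k` of the coordinates and of the coefficients of `h`.

Complete proof of `prf_ext` by induction on `PRF F`.

* `var`: the coordinates; `int z`: `(z, 0, ..., 0)`; `add`: coordinatewise.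
* `mul`: the coordinates of the product are the coefficients of `(P * Q) % h`, with
  `P = ∑ C z_l X^l`, `h = X^s + ∑_{l<s} C h_l X^l` (`PRP.ofFn`, `PRP.mul`, `PRP.divMod`);
  `AdjoinRoot.mk h (P % h) = AdjoinRoot.mk h P`, and `∑ l, C (coeff l) X^l = P % h` as its degree is
  less than `s`.
* `inv`: if `P ≠ 0` (degree `< s`) then `xg (s + 1) h P` gives `d = a h + b P`, `d` divides `h` and `P`, so it is
  a nonzero constant (irreducibility), and the inverse is `(C d⁻¹ * b) % h`; if `P = 0` then `0`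
  (`xg_spec`, `xg_pr`).
* `ite`: an element is `0` iff all its coordinates are (`AdjoinRoot.powerBasis`, or
  `AdjoinRoot.mk_eq_zero` and the degree).

`prd_ext`: apply `prf_ext` to the characteristic function.
-/

set_option autoImplicit false

noncomputable section

namespace Pool.Agent.PRc

open Polynomial
open scoped Classical

/-- the element of `k[T]/(h)` with the coordinates `z` -/
def ext {k : Type} [Field k] {s : ℕ} (h : k[X]) (z : Fin s → k) : AdjoinRoot h :=
  AdjoinRoot.mk h (∑ l : Fin s, C (z l) * X ^ (l : ℕ))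

private def pol_Ext {k : Type} [Field k] {s : ℕ} (z : Fin s → k) : k[X] :=
  ∑ l : Fin s, C (z l) * X ^ (l : ℕ)

private theorem coeff_Ext {k : Type} [Field k] {s : ℕ} (z : Fin s → k) (l : Fin s) :
    (pol_Ext z).coeff l = z l := by
  unfold pol_Ext
  rw [finsetSum_coeff, Finset.sum_eq_single l]
  · rw [coeff_C_mul, coeff_X_pow, if_pos rfl, mul_one]
  · intro b _ hb
    rw [coeff_C_mul, coeff_X_pow, if_neg fun h => hb (Fin.ext h.symm), mul_zero]
  · intro h
    exact absurd (Finset.mem_univ l) h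

private theorem coeff0_Ext {k : Type} [Field k] {s : ℕ} (z : Fin s → k) {m : ℕ} (hm : s ≤ m) :
    (pol_Ext z).coeff m = 0 := by
  unfold pol_Ext
  rw [finsetSum_coeff]
  refine Finset.sum_eq_zero fun b _ => ?_
  rw [coeff_C_mul, coeff_X_pow, if_neg (by have := b.2; omega), mul_zero]

private theorem degree_Ext {k : Type} [Field k] {s : ℕ} (z : Fin s → k) :
    (pol_Ext z).degree < (s : WithBot ℕ) := by
  rw [degree_lt_iff_coeff_zero]
  intro m hm
  exact coeff0_Ext z hm

private theorem eq_Ext {k : Type} [Field k] {s : ℕ} (Q : k[X]) (hQ : Q.degree < (s : WithBot ℕ)) :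
    pol_Ext (fun l : Fin s => Q.coeff l) = Q := by
  ext m
  by_cases hm : s ≤ m
  · rw [coeff0_Ext _ hm]
    rw [degree_lt_iff_coeff_zero] at hQ
    exact (hQ m hm).symm
  · exact coeff_Ext (fun l : Fin s => Q.coeff l) ⟨m, not_le.1 hm⟩

private theorem zero_Ext {k : Type} [Field k] {s : ℕ} {h : k[X]} (hm : h.Monic)
    (hs : h.natDegree = s) {Q : k[X]} (hQ : Q.degree < (s : WithBot ℕ)) (hd : h ∣ Q) : Q = 0 := by
  refine Polynomial.eq_zero_of_dvd_of_degree_lt hd ?_
  rw [degree_eq_natDegree hm.ne_zero, hs]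
  exact hQ

private theorem mod_Ext {k : Type} [Field k] {s : ℕ} {h : k[X]} (hm : h.Monic)
    (hs : h.natDegree = s) (Q : k[X]) :
    ext h (fun l : Fin s => (Q % h).coeff l) = AdjoinRoot.mk h Q := by
  have h1 : (Q % h).degree < (s : WithBot ℕ) := by
    have h2 := EuclideanDomain.mod_lt Q hm.ne_zero
    rw [← hs, ← degree_eq_natDegree hm.ne_zero]
    exact h2
  have h3 : ext h (fun l : Fin s => (Q % h).coeff l) = AdjoinRoot.mk h (Q % h) := by
    have h4 := eq_Ext (s := s) (Q % h) h1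
    unfold ext
    unfold pol_Ext at h4
    rw [h4]
  rw [h3, AdjoinRoot.mk_eq_mk]
  refine ⟨-(Q / h), ?_⟩
  have h5 := EuclideanDomain.div_add_mod Q h
  linear_combination h5

theorem ext_inj {k : Type} [Field k] {s : ℕ} {h : k[X]} (hm : h.Monic) (hs : h.natDegree = s)
    {z z' : Fin s → k} (hz : ext h z = ext h z') : z = z' := by
  have h1 : h ∣ pol_Ext z - pol_Ext z' := AdjoinRoot.mk_eq_mk.1 hz
  have h2 : pol_Ext z - pol_Ext z' = 0 := by
    refine zero_Ext hm hs ?_ h1
    rw [degree_lt_iff_coeff_zero]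
    intro m hm'
    rw [coeff_sub, coeff0_Ext z hm', coeff0_Ext z' hm', sub_zero]
  funext l
  rw [← coeff_Ext z l, ← coeff_Ext z' l, sub_eq_zero.1 h2]

theorem ext_surj {k : Type} [Field k] {s : ℕ} {h : k[X]} (hm : h.Monic) (hs : h.natDegree = s)
    (y : AdjoinRoot h) : ∃ z : Fin s → k, ext h z = y := by
  obtain ⟨Q, rfl⟩ := AdjoinRoot.mk_surjective y
  exact ⟨_, mod_Ext hm hs Q⟩

private theorem ext0_Ext {k : Type} [Field k] {s : ℕ} {h : k[X]} (hm : h.Monic)
    (hs : h.natDegree = s) (z : Fin s → k) : ext h z = 0 ↔ pol_Ext z = 0 := by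
  constructor
  · intro h1
    exact zero_Ext hm hs (degree_Ext z) (AdjoinRoot.mk_eq_zero.1 h1)
  · intro h1
    have h2 : ext h z = AdjoinRoot.mk h (pol_Ext z) := rfl
    rw [h2, h1, map_zero]

/-- the polynomial with given coordinates, as a family -/
private theorem prp_Ext {ι : Type} {s : ℕ} {G : Fin s → FF ι} (hG : ∀ l, PRF (G l)) :
    PRP (fun k _ x => pol_Ext fun l => G l k x) :=
  (PRP.sum Finset.univ (F := fun (l : Fin s) k _ x => C (G l k x) * X ^ (l : ℕ))
    fun l _ => (PRP.C (hG l)).mul (PRP.X.pow l)).congr fun k _ x => rfl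

/-- the modulus as a family -/
private def hp_Ext {κ : Type} (s : ℕ) : FP ((κ × Fin s) ⊕ Fin s) :=
  fun _ _ x => X ^ s + pol_Ext fun l => x (Sum.inr l)

private theorem hpr_Ext {κ : Type} (s : ℕ) : PRP (hp_Ext (κ := κ) s) :=
  (PRP.X.pow s).add (prp_Ext fun l => PRF.var (Sum.inr l))

private theorem hpe_Ext {κ : Type} {k : Type} [Field k] {s : ℕ} {h : k[X]} (hm : h.Monic)
    (hs : h.natDegree = s) (z : κ × Fin s → k) :
    hp_Ext s k (Sum.elim z fun l => h.coeff l) = h := by
  have h1 : hp_Ext s k (Sum.elim z fun l => h.coeff l) =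
      X ^ s + pol_Ext (fun l : Fin s => h.coeff l) := rfl
  rw [h1]
  ext m
  rw [coeff_add, coeff_X_pow]
  rcases lt_trichotomy m s with h2 | h2 | h2
  · rw [if_neg h2.ne, zero_add]
    exact coeff_Ext (fun l : Fin s => h.coeff l) ⟨m, h2⟩
  · rw [if_pos h2, coeff0_Ext _ h2.ge, add_zero, h2, ← hs]
    exact hm.coeff_natDegree.symm
  · rw [if_neg h2.ne', coeff0_Ext _ h2.le, add_zero]
    exact (coeff_eq_zero_of_natDegree_lt (by omega)).symm

/-- a family of polynomials reduced modulo `h` gives the coordinates -/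
private theorem red_Ext {κ : Type} {s : ℕ} {Q : FP ((κ × Fin s) ⊕ Fin s)} (hQ : PRP Q) :
    (∀ l : Fin s, PRF (fun k _ x => (Q k x % hp_Ext s k x).coeff l)) ∧
      ∀ (k : Type) [Field k] (h : k[X]) [Fact (Irreducible h)], h.Monic → h.natDegree = s →
        ∀ z : κ × Fin s → k,
          (ext h fun l : Fin s => (Q k (Sum.elim z fun l => h.coeff l) %
            hp_Ext s k (Sum.elim z fun l => h.coeff l)).coeff l) =
            AdjoinRoot.mk h (Q k (Sum.elim z fun l => h.coeff l)) := by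
  constructor
  · intro l
    exact (PRP.divMod hQ (hpr_Ext s)).2.2 l
  · intro k _ h _ hm hs z
    rw [hpe_Ext hm hs z]
    exact mod_Ext hm hs _

private theorem inv_Ext {k : Type} [Field k] {s : ℕ} {h : k[X]}
    [hi : Fact (Irreducible h)] (hm : h.Monic) (hs : h.natDegree = s) (z : Fin s → k) :
    (ext h z)⁻¹ = AdjoinRoot.mk h (C (((xg (s + 1) h (pol_Ext z)).1.coeff 0)⁻¹) *
      (xg (s + 1) h (pol_Ext z)).2.2) := by
  by_cases hz : pol_Ext z = 0
  · have h1 : ext h z = 0 := (ext0_Ext hm hs z).2 hz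
    have h2 : xg (s + 1) h (pol_Ext z) = (h, 1, 0) := by
      rw [hz, xg, if_pos rfl]
    rw [h1, h2, inv_zero, mul_zero, map_zero]
  · have hdeg : (pol_Ext z).natDegree < s + 1 := by
      have h1 := degree_Ext z
      rw [degree_eq_natDegree hz] at h1
      have h2 : (pol_Ext z).natDegree < s := by exact_mod_cast h1
      omega
    obtain ⟨e1, e2, e3⟩ := xg_spec (s + 1) h (pol_Ext z) (Or.inr hdeg)
    generalize (xg (s + 1) h (pol_Ext z)).1 = d at e1 e2 e3 ⊢
    generalize (xg (s + 1) h (pol_Ext z)).2.1 = u at e1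
    generalize (xg (s + 1) h (pol_Ext z)).2.2 = v at e1 ⊢
    have hunit : IsUnit d := by
      rcases hi.out.dvd_iff.1 e2 with h1 | h1
      · exact h1
      · exact absurd (zero_Ext hm hs (degree_Ext z) (h1.dvd.trans e3)) hz
    have hC : d = C (d.coeff 0) := eq_C_of_natDegree_eq_zero (natDegree_eq_zero_of_isUnit hunit)
    have hc : d.coeff 0 ≠ 0 := by
      intro h0
      rw [h0, C_0] at hC
      exact hunit.ne_zero hC
    have h3 : ext h z = AdjoinRoot.mk h (pol_Ext z) := rfl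
    have h4 : ext h z * AdjoinRoot.mk h (C ((d.coeff 0)⁻¹) * v) = 1 := by
      rw [h3, ← map_mul, ← map_one (AdjoinRoot.mk h), AdjoinRoot.mk_eq_mk]
      refine ⟨-(C ((d.coeff 0)⁻¹) * u), ?_⟩
      have h5 : C ((d.coeff 0)⁻¹) * d = 1 := by
        rw [hC, coeff_C_zero, ← C_mul, inv_mul_cancel₀ hc, C_1]
      have h6 : C ((d.coeff 0)⁻¹) * (u * h + v * pol_Ext z) = 1 := by
        rw [← e1, h5]
      linear_combination h6
    exact (eq_inv_of_mul_eq_one_right h4).symm

theorem prf_ext {κ : Type} {F : FF κ} (hF : PRF F) (s : ℕ) (hs : 0 < s) :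
    ∃ G : Fin s → FF ((κ × Fin s) ⊕ Fin s), (∀ l, PRF (G l)) ∧
      ∀ (k : Type) [Field k] (h : k[X]) [Fact (Irreducible h)], h.Monic → h.natDegree = s →
        ∀ z : κ × Fin s → k,
          F (AdjoinRoot h) (fun i => ext h fun l => z (i, l)) =
            ext h fun l => G l k (Sum.elim z fun l => h.coeff l) := by
  induction hF with
  | var i =>
    exact ⟨fun l k _ x => x (Sum.inl (i, l)), fun l => PRF.var _, fun k _ h _ _ _ z => rfl⟩
  | int m =>
    obtain ⟨h1, h2⟩ := red_Ext (κ := κ) (s := s) (Q := fun k _ _ => C ((m : ℤ) : k))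
      (PRP.C (PRF.int m))
    refine ⟨_, h1, fun k _ h _ hm hd z => ?_⟩
    rw [h2 k h hm hd z]
    simp
  | @add F G _ _ ihF ihG =>
    obtain ⟨G1, p1, q1⟩ := ihF
    obtain ⟨G2, p2, q2⟩ := ihG
    refine ⟨fun l k _ x => G1 l k x + G2 l k x, fun l => (p1 l).add (p2 l),
      fun k _ h _ hm hd z => ?_⟩
    beta_reduce
    rw [q1 k h hm hd z, q2 k h hm hd z]
    unfold ext
    rw [← map_add, ← Finset.sum_add_distrib]
    refine congrArg _ (Finset.sum_congr rfl fun l _ => ?_)
    rw [C_add, add_mul]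
  | @mul F G _ _ ihF ihG =>
    obtain ⟨G1, p1, q1⟩ := ihF
    obtain ⟨G2, p2, q2⟩ := ihG
    obtain ⟨h1, h2⟩ := red_Ext (κ := κ) (s := s)
      (Q := fun k _ x => pol_Ext (fun l => G1 l k x) * pol_Ext (fun l => G2 l k x))
      ((prp_Ext p1).mul (prp_Ext p2))
    refine ⟨_, h1, fun k _ h _ hm hd z => ?_⟩
    rw [h2 k h hm hd z]
    beta_reduce
    rw [q1 k h hm hd z, q2 k h hm hd z, map_mul]
    rfl
  | @inv F _ ihF =>
    obtain ⟨G1, p1, q1⟩ := ihF
    obtain ⟨x1, x2, x3⟩ := xg_pr (s + 1) (hpr_Ext (κ := κ) s) (prp_Ext p1)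
    obtain ⟨h1, h2⟩ := red_Ext (κ := κ) (s := s)
      (Q := fun k _ x => C (((xg (s + 1) (hp_Ext s k x) (pol_Ext fun l => G1 l k x)).1.coeff 0)⁻¹) *
        (xg (s + 1) (hp_Ext s k x) (pol_Ext fun l => G1 l k x)).2.2)
      ((PRP.C (x1.2 0).inv).mul x3)
    refine ⟨_, h1, fun k _ h _ hm hd z => ?_⟩
    rw [h2 k h hm hd z]
    beta_reduce
    rw [q1 k h hm hd z, inv_Ext hm hd, hpe_Ext hm hd z]
  | @ite F G H _ _ _ ihF ihG ihH =>
    obtain ⟨G1, p1, q1⟩ := ihF
    obtain ⟨G2, p2, q2⟩ := ihG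
    obtain ⟨G3, p3, q3⟩ := ihH
    refine ⟨fun l k _ x => if (pol_Ext fun l => G1 l k x) = 0 then G2 l k x else G3 l k x,
      fun l => (PRF.iteD (PRD.zeroP (prp_Ext p1)) (p2 l) (p3 l)).congr
        fun k _ x => by beta_reduce; split_ifs <;> rfl, fun k _ h _ hm hd z => ?_⟩
    beta_reduce
    rw [q1 k h hm hd z, q2 k h hm hd z, q3 k h hm hd z]
    by_cases h0 : (pol_Ext fun l => G1 l k (Sum.elim z fun l => h.coeff l)) = 0
    · rw [if_pos ((ext0_Ext hm hd _).2 h0)]
      simp only [if_pos h0]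
    · rw [if_neg fun h1 => h0 ((ext0_Ext hm hd _).1 h1)]
      simp only [if_neg h0]

theorem prd_ext {κ : Type} {P : FR κ} (hP : PRD P) (s : ℕ) (hs : 0 < s) :
    ∃ Q : FR ((κ × Fin s) ⊕ Fin s), PRD Q ∧
      ∀ (k : Type) [Field k] (h : k[X]) [Fact (Irreducible h)], h.Monic → h.natDegree = s →
        ∀ z : κ × Fin s → k,
          (P (AdjoinRoot h) (fun i => ext h fun l => z (i, l)) ↔
            Q k (Sum.elim z fun l => h.coeff l)) := by
  obtain ⟨G, p, q⟩ := prf_ext hP s hs
  refine ⟨fun k _ x => ¬ (pol_Ext fun l => G l k x) = 0, (PRD.zeroP (prp_Ext p)).not,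
    fun k _ h _ hm hd z => ?_⟩
  have h1 := q k h hm hd z
  have h2 := ext0_Ext hm hd (fun l => G l k (Sum.elim z fun l => h.coeff l))
  rw [← h1] at h2
  beta_reduce
  rw [← h2]
  by_cases h3 : P (AdjoinRoot h) (fun i => ext h fun l => z (i, l))
  · simp [h3]
  · simp [h3]

end Pool.Agent.PRc
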