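import Pool.Agent.PRc.Basic
import Pool.Agent.ECD.Defs
import Pool.Agent.ECD.EcCount

/-!
# Package PRc-Delta: piecewise rational functions over prime fields are definable

Complete proof of `prf_dfun` by induction on `PRF F`; values in `ZMod p` are represented by
`ZMod.val`, the function is `0` if `w 0` is not a prime.

* `var i`: `w (i + 1) % w 0` (`ZMod.val_natCast`); `int z`: `(z % p).toNat`, for `z ≥ 0` the number
  `z % p`, for `z = -n` the number `(p - n % p) % p`.
* `add`, `mul`: `ZMod.val_add`, `ZMod.val_mul`; `inv`: the value `y` with `y < p`, `x y % p = 1` if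
  `x ≠ 0`, and `0` if `x = 0`: graph definable.
* `ite`: `DFun.ite` with the test that the value of `F` is `0` (`ZMod.val_eq_zero`).

Calculus: Grz/Delta0.lean, PTr/Chain.lean, PTr/Orbit2.lean (`DFun.modAny`), ECD/GPowA
(`delta_prime`: primality is definable), ECD/EcCount (`dfun_congr`).

`prd_delta`: `P` holds iff the value of the characteristic function is not `0`.
`prf_dfun'`, `prd_delta'`: with definable functions instead of coordinates: composition
(`DFun.comp`, `Delta0.subst`).
-/

set_option autoImplicit false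

namespace Pool.Agent.PRc

open Polynomial Pool.Agent.Grz Pool.Agent.PTr
open scoped Classical

/-- the value in the prime field, `0` if `p` is not a prime -/
noncomputable def zv {ι : Type} (F : FF ι) (p : ℕ) (x : ι → ℕ) : ℕ :=
  if h : p.Prime then haveI := Fact.mk h; (F (ZMod p) (fun i => (x i : ZMod p))).val else 0

private theorem zv_pos_Delta {ι : Type} (F : FF ι) (p : ℕ) [hp : Fact p.Prime] (x : ι → ℕ) :
    zv F p x = (F (ZMod p) (fun i => (x i : ZMod p))).val := by
  unfold zv
  rw [dif_pos hp.out]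

private theorem zv_neg_Delta {ι : Type} (F : FF ι) (p : ℕ) (hp : ¬ p.Prime) (x : ι → ℕ) :
    zv F p x = 0 := by
  unfold zv
  rw [dif_neg hp]

private theorem zv_le_Delta {ι : Type} (F : FF ι) (p : ℕ) (x : ι → ℕ) : zv F p x ≤ p := by
  by_cases hp : p.Prime
  · have := Fact.mk hp
    rw [zv_pos_Delta]
    exact (ZMod.val_lt _).le
  · rw [zv_neg_Delta F p hp]
    exact Nat.zero_le _

private theorem int_Delta (p : ℕ) [hp : Fact p.Prime] (m : ℕ) :
    ((-(m : ℤ) : ℤ) : ZMod p).val = (p - m % p) % p := by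
  have h1 : m % p ≤ p := (Nat.mod_lt _ hp.out.pos).le
  have h2 : ((-(m : ℤ) : ℤ) : ZMod p) = ((p - m % p : ℕ) : ZMod p) := by
    rw [Nat.cast_sub h1, ZMod.natCast_mod, ZMod.natCast_self]
    push_cast
    ring
  rw [h2, ZMod.val_natCast]

private theorem inv_Delta (p : ℕ) [hp : Fact p.Prime] (x : ZMod p) (y : ℕ) :
    y = (x⁻¹).val ↔ (x.val = 0 ∧ y = 0) ∨ (x.val ≠ 0 ∧ y < p ∧ (x.val * y) % p = 1) := by
  by_cases hx : x = 0
  · rw [hx, inv_zero, ZMod.val_zero]
    simp
  · have hx' : x.val ≠ 0 := fun h => hx ((ZMod.val_eq_zero x).1 h)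
    constructor
    · intro h
      refine Or.inr ⟨hx', ?_, ?_⟩
      · rw [h]
        exact ZMod.val_lt _
      · rw [h, ← ZMod.val_mul, mul_inv_cancel₀ hx]
        exact ZMod.val_one p
    · rintro (⟨h, _⟩ | ⟨_, h1, h2⟩)
      · exact absurd h hx'
      · have h3 : x * (y : ZMod p) = 1 := by
          have h4 : ((x.val * y : ℕ) : ZMod p) = ((1 : ℕ) : ZMod p) := by
            rw [ZMod.natCast_eq_natCast_iff, Nat.ModEq, h2, Nat.mod_eq_of_lt hp.out.one_lt]
          push_cast at h4
          rwa [ZMod.natCast_zmod_val] at h4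
        have h5 : (y : ZMod p) = x⁻¹ := eq_inv_of_mul_eq_one_right h3
        rw [← h5, ZMod.val_natCast, Nat.mod_eq_of_lt h1]

private theorem gen_Delta {n : ℕ} {ι : Type} {F : FF ι} (hF : PRF F)
    {p : (Fin n → ℕ) → ℕ} {a : ι → (Fin n → ℕ) → ℕ} (hp : DFun n p) (ha : ∀ i, DFun n (a i)) :
    DFun n (fun v => zv F (p v) (fun i => a i v)) := by
  induction hF with
  | var i =>
    refine ECD.dfun_congr (DFun.ite (ECD.delta_prime hp) (DFun.modAny (ha i) hp)
      (DFun.const 0)) fun v => ?_
    by_cases h : (p v).Prime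
    · have := Fact.mk h
      rw [zv_pos_Delta, if_pos h, ZMod.val_natCast]
    · rw [zv_neg_Delta _ _ h, if_neg h]
  | int z =>
    obtain ⟨m, hm⟩ := z.eq_nat_or_neg
    rcases hm with hm | hm
    · refine ECD.dfun_congr (DFun.ite (ECD.delta_prime hp) (DFun.modAny (DFun.const m) hp)
        (DFun.const 0)) fun v => ?_
      by_cases h : (p v).Prime
      · have := Fact.mk h
        rw [zv_pos_Delta, if_pos h, hm]
        have h1 : ((m : ℤ) : ZMod (p v)) = ((m : ℕ) : ZMod (p v)) := Int.cast_natCast m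
        rw [h1, ZMod.val_natCast]
      · rw [zv_neg_Delta _ _ h, if_neg h]
    · refine ECD.dfun_congr (DFun.ite (ECD.delta_prime hp) (DFun.modAny
        (hp.sub (DFun.modAny (DFun.const m) hp)) hp) (DFun.const 0)) fun v => ?_
      by_cases h : (p v).Prime
      · have := Fact.mk h
        rw [zv_pos_Delta, if_pos h, hm]
        exact int_Delta (p v) m
      · rw [zv_neg_Delta _ _ h, if_neg h]
  | add _ _ ihF ihG =>
    refine ECD.dfun_congr (DFun.ite (ECD.delta_prime hp) (DFun.modAny (ihF.add ihG) hp)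
      (DFun.const 0)) fun v => ?_
    by_cases h : (p v).Prime
    · have := Fact.mk h
      rw [zv_pos_Delta, if_pos h, zv_pos_Delta, zv_pos_Delta]
      exact ZMod.val_add _ _
    · rw [zv_neg_Delta _ _ h, if_neg h]
  | mul _ _ ihF ihG =>
    refine ECD.dfun_congr (DFun.ite (ECD.delta_prime hp) (DFun.modAny (ihF.mul ihG) hp)
      (DFun.const 0)) fun v => ?_
    by_cases h : (p v).Prime
    · have := Fact.mk h
      rw [zv_pos_Delta, if_pos h, zv_pos_Delta, zv_pos_Delta]
      exact ZMod.val_mul _ _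
    · rw [zv_neg_Delta _ _ h, if_neg h]
  | inv _ ihF =>
    refine DFun.ofGraph hp (fun v => zv_le_Delta _ _ _) ?_
    have h0 := DFun.proj (n := n + 1) 0
    have h1 := (ECD.delta_prime hp.weak).and (((Delta0.eqFun ihF.weak (DFun.const 0)).and
      (Delta0.eqFun h0 (DFun.const 0))).or ((Delta0.eqFun ihF.weak (DFun.const 0)).not.and
        ((Delta0.ltFun h0 hp.weak).and (Delta0.eqFun (DFun.modAny (ihF.weak.mul h0) hp.weak)
          (DFun.const 1)))))
    have h2 := (ECD.delta_prime hp.weak).not.and (Delta0.eqFun h0 (DFun.const 0))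
    refine (h1.or h2).of_iff fun w => ?_
    by_cases h : (p (fun i => w i.succ)).Prime
    · have := Fact.mk h
      simp only [h, true_and, not_true_eq_false, false_and, or_false]
      rw [zv_pos_Delta, zv_pos_Delta]
      exact inv_Delta _ _ _
    · simp only [h, false_and, not_false_eq_true, true_and, false_or]
      rw [zv_neg_Delta _ _ h]
  | ite _ _ _ ihF ihG ihH =>
    refine ECD.dfun_congr (DFun.ite (Delta0.eqFun ihF (DFun.const 0)) ihG ihH) fun v => ?_
    by_cases h : (p v).Prime
    · have := Fact.mk h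
      rw [zv_pos_Delta, zv_pos_Delta, zv_pos_Delta, zv_pos_Delta]
      simp only [ZMod.val_eq_zero]
      split_ifs <;> rfl
    · rw [zv_neg_Delta _ _ h, zv_neg_Delta _ _ h, zv_neg_Delta _ _ h, zv_neg_Delta _ _ h]
      simp

theorem prf_dfun {n : ℕ} {F : FF (Fin n)} (hF : PRF F) :
    DFun (n + 1) (fun w => zv F (w 0) (fun i => w i.succ)) :=
  gen_Delta hF (p := fun w => w 0) (a := fun i w => w i.succ) (DFun.proj 0)
    fun i => DFun.proj i.succ

theorem prf_dfun' {n : ℕ} {ι : Type} [Fintype ι] {F : FF ι} (hF : PRF F)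
    {p : (Fin n → ℕ) → ℕ} {a : ι → (Fin n → ℕ) → ℕ} (hp : DFun n p) (ha : ∀ i, DFun n (a i)) :
    DFun n (fun v => zv F (p v) (fun i => a i v)) :=
  gen_Delta hF hp ha

theorem prd_delta' {n : ℕ} {ι : Type} [Fintype ι] {P : FR ι} (hP : PRD P)
    {p : (Fin n → ℕ) → ℕ} {a : ι → (Fin n → ℕ) → ℕ} (hp : DFun n p) (ha : ∀ i, DFun n (a i)) :
    Delta0 n (fun v => ∃ h : (p v).Prime, haveI := Fact.mk h;
      P (ZMod (p v)) (fun i => (a i v : ZMod (p v)))) := by
  have h1 := gen_Delta hP hp ha
  refine (Delta0.eqFun h1 (DFun.const 0)).not.of_iff fun v => ?_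
  by_cases h : (p v).Prime
  · have := Fact.mk h
    rw [zv_pos_Delta]
    constructor
    · rintro ⟨_, h2⟩ h3
      rw [if_pos h2] at h3
      rw [ZMod.val_one] at h3
      exact one_ne_zero h3
    · intro h3
      refine ⟨h, ?_⟩
      by_contra h4
      apply h3
      rw [if_neg h4]
      exact ZMod.val_zero
  · constructor
    · rintro ⟨h2, _⟩
      exact absurd h2 h
    · intro h2
      exact absurd (zv_neg_Delta _ _ h _) h2

end Pool.Agent.PRc
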