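import Pool.Agent.PRc.Basic

/-!
# Package PRc-Poly: polynomials with piecewise rational coefficients

Complete proofs. Everything by coefficients: `coeff_add`, `coeff_mul` (a sum over the antidiagonal),
`coeff_C`, `coeff_X`, `coeff_C_mul`, `Polynomial.coeff_map`; the degree bounds by `natDegree_add_le`,
`natDegree_mul_le`, `natDegree_pow_le`, ...

* `PRP.sum`: for a finite sum.
* `PRP.eval`: the value at a piecewise rational point: `eval_eq_sum_range'` with the degree bound `D`.
* `PRP.dvt`: the derivative: `coeff_derivative`.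
* `PRP.ofFn`: `∑ i : Fin n, C (F i) * X ^ i`.
* `PRP.comp`: substitution of piecewise rational functions for the variables (not composition of
  polynomials).
* `PRD.zeroP`, `PRD.eqP`: `p = 0` iff all coefficients up to `D` vanish.
* `PRD.deg`: `(F k x).natDegree ≤ e` iff all coefficients with `e < i ≤ D` vanish
  (`natDegree_le_iff_coeff_eq_zero`); `= e` by `≤ e` and not `≤ e - 1`; `PRF.lead`: the leading
  coefficient is `∑ e ≤ D, if natDegree = e then coeff e else 0`.
* `PRD.monic`.
-/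

set_option autoImplicit false

namespace Pool.Agent.PRc

open Polynomial
open scoped Classical

variable {ι : Type}

theorem PRP.congr {F G : FP ι} (hF : PRP F) (h : ∀ (k : Type) [Field k] (x : ι → k),
    G k x = F k x) : PRP G := by
  have e : G = F := by
    funext k inst x
    exact h k x
  rw [e]
  exact hF

theorem PRP.C {F : FF ι} (hF : PRF F) : PRP (fun k _ x => Polynomial.C (F k x)) := by
  refine ⟨⟨0, fun k _ x => (natDegree_C _).le⟩, fun i => ?_⟩
  by_cases hi : i = 0
  · exact hF.congr fun k _ x => by rw [coeff_C, if_pos hi]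
  · exact PRF.zero.congr fun k _ x => by rw [coeff_C, if_neg hi]

theorem PRP.X : PRP (ι := ι) (fun k _ _ => (Polynomial.X : k[X])) := by
  refine ⟨⟨1, fun k _ x => natDegree_X_le⟩, fun i => ?_⟩
  by_cases hi : 1 = i
  · exact PRF.one.congr fun k _ x => by rw [coeff_X, if_pos hi]
  · exact PRF.zero.congr fun k _ x => by rw [coeff_X, if_neg hi]

theorem PRP.zero : PRP (ι := ι) (fun k _ _ => (0 : k[X])) := by
  exact (PRP.C PRF.zero).congr fun k _ x => by rw [Polynomial.C_0]

theorem PRP.one : PRP (ι := ι) (fun k _ _ => (1 : k[X])) := by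
  exact (PRP.C PRF.one).congr fun k _ x => by rw [Polynomial.C_1]

theorem PRP.add {F G : FP ι} (hF : PRP F) (hG : PRP G) : PRP (fun k _ x => F k x + G k x) := by
  obtain ⟨⟨D, hD⟩, hc⟩ := hF
  obtain ⟨⟨E, hE⟩, hd⟩ := hG
  refine ⟨⟨max D E, fun k _ x => (natDegree_add_le _ _).trans (max_le_max (hD k x) (hE k x))⟩,
    fun i => ((hc i).add (hd i)).congr fun k _ x => by rw [coeff_add]⟩

theorem PRP.neg {F : FP ι} (hF : PRP F) : PRP (fun k _ x => -F k x) := by
  obtain ⟨⟨D, hD⟩, hc⟩ := hF
  exact ⟨⟨D, fun k _ x => by rw [natDegree_neg]; exact hD k x⟩,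
    fun i => (hc i).neg.congr fun k _ x => by rw [coeff_neg]⟩

theorem PRP.sub {F G : FP ι} (hF : PRP F) (hG : PRP G) : PRP (fun k _ x => F k x - G k x) := by
  exact (hF.add hG.neg).congr fun k _ x => by rw [sub_eq_add_neg]

theorem PRP.mul {F G : FP ι} (hF : PRP F) (hG : PRP G) : PRP (fun k _ x => F k x * G k x) := by
  obtain ⟨⟨D, hD⟩, hc⟩ := hF
  obtain ⟨⟨E, hE⟩, hd⟩ := hG
  refine ⟨⟨D + E, fun k _ x => natDegree_mul_le.trans (add_le_add (hD k x) (hE k x))⟩,
    fun i => (PRF.sum (Finset.HasAntidiagonal.antidiagonal i)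
      (F := fun a k _ x => (F k x).coeff a.1 * (G k x).coeff a.2)
      fun a _ => (hc a.1).mul (hd a.2)).congr fun k _ x => by rw [coeff_mul]⟩

theorem PRP.pow {F : FP ι} (hF : PRP F) (n : ℕ) : PRP (fun k _ x => F k x ^ n) := by
  induction n with
  | zero => exact PRP.one.congr fun k _ x => by rw [pow_zero]
  | succ n ih => exact (ih.mul hF).congr fun k _ x => by rw [pow_succ]

theorem PRP.sum {α : Type*} (s : Finset α) {F : α → FP ι} (hF : ∀ a ∈ s, PRP (F a)) :
    PRP (fun k _ x => ∑ a ∈ s, F a k x) := by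
  induction s using Finset.induction_on with
  | empty => exact PRP.zero.congr fun k _ x => by rw [Finset.sum_empty]
  | insert a s ha ih =>
    exact ((hF a (Finset.mem_insert_self a s)).add
      (ih fun b hb => hF b (Finset.mem_insert_of_mem hb))).congr
      fun k _ x => by rw [Finset.sum_insert ha]

theorem PRP.ofFn {n : ℕ} {F : Fin n → FF ι} (hF : ∀ i, PRF (F i)) :
    PRP (fun k _ x => ∑ i : Fin n, Polynomial.C (F i k x) * Polynomial.X ^ (i : ℕ)) := by
  exact PRP.sum Finset.univ
    (F := fun i k _ x => Polynomial.C (F i k x) * Polynomial.X ^ (i : ℕ))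
    fun i _ => (PRP.C (hF i)).mul (PRP.X.pow i)

theorem PRP.iteD {P : FR ι} {G H : FP ι} (hP : PRD P) (hG : PRP G) (hH : PRP H) :
    PRP (fun k _ x => if P k x then G k x else H k x) := by
  obtain ⟨⟨D, hD⟩, hc⟩ := hG
  obtain ⟨⟨E, hE⟩, hd⟩ := hH
  refine ⟨⟨max D E, fun k _ x => ?_⟩, fun i => (PRF.iteD hP (hc i) (hd i)).congr
    fun k _ x => ?_⟩
  · beta_reduce
    by_cases h : P k x
    · rw [if_pos h]
      exact (hD k x).trans (le_max_left _ _)
    · rw [if_neg h]
      exact (hE k x).trans (le_max_right _ _)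
  · beta_reduce
    by_cases h : P k x
    · rw [if_pos h, if_pos h]
    · rw [if_neg h, if_neg h]

theorem PRP.dvt {F : FP ι} (hF : PRP F) : PRP (fun k _ x => derivative (F k x)) := by
  obtain ⟨⟨D, hD⟩, hc⟩ := hF
  refine ⟨⟨D, fun k _ x => (natDegree_derivative_le _).trans
    ((Nat.sub_le _ _).trans (hD k x))⟩, fun i => ((hc (i + 1)).mul (PRF.nat (i + 1))).congr
    fun k _ x => ?_⟩
  rw [coeff_derivative, Nat.cast_add, Nat.cast_one]

theorem PRP.eval {F : FP ι} (hF : PRP F) {G : FF ι} (hG : PRF G) :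
    PRF (fun k _ x => (F k x).eval (G k x)) := by
  obtain ⟨⟨D, hD⟩, hc⟩ := hF
  exact (PRF.sum (Finset.range (D + 1)) (F := fun i k _ x => (F k x).coeff i * G k x ^ i)
    fun i _ => (hc i).mul (hG.pow i)).congr fun k _ x => by
      rw [eval_eq_sum_range' (Nat.lt_succ_of_le (hD k x))]

theorem PRP.comp {κ : Type} {F : FP κ} (hF : PRP F) {G : κ → FF ι} (hG : ∀ j, PRF (G j)) :
    PRP (fun k _ x => F k (fun j => G j k x)) := by
  obtain ⟨⟨D, hD⟩, hc⟩ := hF
  exact ⟨⟨D, fun k _ x => hD k _⟩, fun i => PRF.comp (hc i) hG⟩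

theorem PRD.zeroP {F : FP ι} (hF : PRP F) : PRD (fun k _ x => F k x = 0) := by
  obtain ⟨⟨D, hD⟩, hc⟩ := hF
  refine (PRD.all (Finset.range (D + 1)) (P := fun i k _ x => (F k x).coeff i = 0)
    fun i _ => PRD.eq (hc i) PRF.zero).congr fun k _ x => ⟨fun h i _ => ?_, fun h => ?_⟩
  · rw [h, coeff_zero]
  · ext i
    rw [coeff_zero]
    by_cases hi : i ≤ D
    · exact h i (Finset.mem_range.2 (Nat.lt_succ_of_le hi))
    · exact coeff_eq_zero_of_natDegree_lt ((hD k x).trans_lt (not_le.1 hi))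

theorem PRD.eqP {F G : FP ι} (hF : PRP F) (hG : PRP G) : PRD (fun k _ x => F k x = G k x) := by
  exact (PRD.zeroP (hF.sub hG)).congr fun k _ x => by rw [sub_eq_zero]

theorem PRD.degLe {F : FP ι} (hF : PRP F) (e : ℕ) : PRD (fun k _ x => (F k x).natDegree ≤ e) := by
  obtain ⟨⟨D, hD⟩, hc⟩ := hF
  refine (PRD.all ((Finset.range (D + 1)).filter fun i => e < i)
    (P := fun i k _ x => (F k x).coeff i = 0)
    fun i _ => PRD.eq (hc i) PRF.zero).congr fun k _ x => ?_
  rw [natDegree_le_iff_coeff_eq_zero]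
  constructor
  · intro h i hi
    exact h i (Finset.mem_filter.1 hi).2
  · intro h i hi
    by_cases hi2 : i ≤ D
    · exact h i (Finset.mem_filter.2 ⟨Finset.mem_range.2 (Nat.lt_succ_of_le hi2), hi⟩)
    · exact coeff_eq_zero_of_natDegree_lt ((hD k x).trans_lt (not_le.1 hi2))

theorem PRD.degEq {F : FP ι} (hF : PRP F) (e : ℕ) : PRD (fun k _ x => (F k x).natDegree = e) := by
  cases e with
  | zero => exact (PRD.degLe hF 0).congr fun k _ x => by rw [Nat.le_zero]
  | succ e =>
    refine ((PRD.degLe hF (e + 1)).and (PRD.degLe hF e).not).congr fun k _ x => ?_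
    constructor
    · intro h
      constructor
      · omega
      · omega
    · rintro ⟨h1, h2⟩
      omega

theorem PRF.lead {F : FP ι} (hF : PRP F) : PRF (fun k _ x => (F k x).leadingCoeff) := by
  obtain ⟨⟨D, hD⟩, hc⟩ := id hF
  refine (PRF.sum (Finset.range (D + 1))
    (F := fun e k _ x => if (F k x).natDegree = e then (F k x).coeff e else 0)
    fun e _ => (PRF.iteD (PRD.degEq hF e) (hc e) PRF.zero).congr fun k _ x => by
      by_cases h : (F k x).natDegree = e
      · rw [if_pos h, if_pos h]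
      · rw [if_neg h, if_neg h]).congr fun k _ x => ?_
  rw [Finset.sum_ite_eq, if_pos (Finset.mem_range.2 (Nat.lt_succ_of_le (hD k x))), leadingCoeff]

theorem PRD.monic {F : FP ι} (hF : PRP F) : PRD (fun k _ x => (F k x).Monic) := by
  exact PRD.eq (PRF.lead hF) PRF.one

end Pool.Agent.PRc
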