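import Pool.Agent.PRc.Div

/-!
# Package PRc-Gcd: the extended Euclidean algorithm

`xg_spec`: induction on `N` for all `a`, `b`. `xg_pr`: induction on `N` with `PRP.divMod`,
`PRP.iteD`. Two polynomials are coprime if and only if the first component of the result is a
nonzero constant.
-/

set_option autoImplicit false

namespace Pool.Agent.PRc

open Polynomial
open scoped Classical

variable {ι : Type}

theorem xg_spec {k : Type} [Field k] (N : ℕ) (a b : k[X]) (h : b = 0 ∨ b.natDegree < N) :
    (xg N a b).1 = (xg N a b).2.1 * a + (xg N a b).2.2 * b ∧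
      (xg N a b).1 ∣ a ∧ (xg N a b).1 ∣ b := by
  induction N generalizing a b with
  | zero =>
    have hb : b = 0 := h.resolve_right (Nat.not_lt_zero _)
    subst hb
    simp [xg]
  | succ N ih =>
    by_cases hb : b = 0
    · subst hb
      simp [xg]
    · have h1 : a % b = 0 ∨ (a % b).natDegree < N := by
        rcases Nat.eq_zero_or_pos b.natDegree with h0 | h0
        · left
          have hu : IsUnit b := by
            rw [Polynomial.eq_C_of_natDegree_eq_zero h0] at hb ⊢
            exact Polynomial.isUnit_C.2 (isUnit_iff_ne_zero.2 fun h => hb (by rw [h, C_0]))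
          exact (EuclideanDomain.mod_eq_zero).2 (hu.dvd)
        · right
          have h2 := Polynomial.natDegree_mod_lt a h0.ne'
          have h3 := h.resolve_left hb
          omega
      obtain ⟨e1, e2, e3⟩ := ih b (a % b) h1
      have e4 : b * (a / b) + a % b = a := EuclideanDomain.div_add_mod a b
      have e5 : xg (N + 1) a b = ((xg N b (a % b)).1, (xg N b (a % b)).2.2,
          (xg N b (a % b)).2.1 - a / b * (xg N b (a % b)).2.2) := by
        rw [xg, if_neg hb]
      rw [e5]
      refine ⟨?_, ?_, e2⟩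
      · show (xg N b (a % b)).1 = (xg N b (a % b)).2.2 * a +
          ((xg N b (a % b)).2.1 - a / b * (xg N b (a % b)).2.2) * b
        have e6 : a % b = a - b * (a / b) := by rw [← e4]; ring_nf; rw [e4]; ring
        calc (xg N b (a % b)).1 = (xg N b (a % b)).2.1 * b + (xg N b (a % b)).2.2 * (a % b) := e1
          _ = (xg N b (a % b)).2.1 * b + (xg N b (a % b)).2.2 * (a - b * (a / b)) := by
            rw [← e6]
          _ = _ := by ring
      · have h6 : (xg N b (a % b)).1 ∣ b * (a / b) + a % b := dvd_add (e2.mul_right _) e3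
        rwa [e4] at h6

theorem xg_pr (N : ℕ) {F G : FP ι} (hF : PRP F) (hG : PRP G) :
    PRP (fun k _ x => (xg N (F k x) (G k x)).1) ∧
      PRP (fun k _ x => (xg N (F k x) (G k x)).2.1) ∧
      PRP (fun k _ x => (xg N (F k x) (G k x)).2.2) := by
  induction N generalizing F G with
  | zero => exact ⟨hF, PRP.one, PRP.zero⟩
  | succ N ih =>
    obtain ⟨hd, hm⟩ := PRP.divMod hF hG
    obtain ⟨h1, h2, h3⟩ := ih hG hm
    have h0 := PRD.zeroP hG
    have e : ∀ (k : Type) [Field k] (x : ι → k), xg (N + 1) (F k x) (G k x) =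
        if G k x = 0 then (F k x, 1, 0) else ((xg N (G k x) (F k x % G k x)).1,
          (xg N (G k x) (F k x % G k x)).2.2,
          (xg N (G k x) (F k x % G k x)).2.1 -
            F k x / G k x * (xg N (G k x) (F k x % G k x)).2.2) := fun _ _ _ => rfl
    refine ⟨(PRP.iteD h0 hF h1).congr fun k _ x => ?_,
      (PRP.iteD h0 PRP.one h3).congr fun k _ x => ?_,
      (PRP.iteD h0 PRP.zero (h2.sub (hd.mul h3))).congr fun k _ x => ?_⟩ <;>
    · rw [e]
      split_ifs <;> rfl

theorem PRD.coprime {F G : FP ι} (hF : PRP F) (hG : PRP G) :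
    PRD (fun k _ x => IsCoprime (F k x) (G k x)) := by
  obtain ⟨D, hD⟩ := hG.1
  have h1 := (xg_pr (D + 1) hF hG).1
  refine ((PRD.zeroP h1).not.and (PRD.degEq h1 0)).congr fun k _ x => ?_
  obtain ⟨e1, e2, e3⟩ := xg_spec (D + 1) (F k x) (G k x)
    (Or.inr (Nat.lt_succ_of_le (hD k x)))
  constructor
  · intro h
    have hu : IsUnit (xg (D + 1) (F k x) (G k x)).1 := h.isUnit_of_dvd' e2 e3
    exact ⟨hu.ne_zero, Polynomial.natDegree_eq_zero_of_isUnit hu⟩
  · rintro ⟨h0, hn⟩
    have hu : IsUnit (xg (D + 1) (F k x) (G k x)).1 := by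
      rw [Polynomial.eq_C_of_natDegree_eq_zero hn] at h0 ⊢
      exact Polynomial.isUnit_C.2 (isUnit_iff_ne_zero.2 fun h => h0 (by rw [h, C_0]))
    obtain ⟨u, hu⟩ := hu
    refine ⟨↑u⁻¹ * (xg (D + 1) (F k x) (G k x)).2.1, ↑u⁻¹ * (xg (D + 1) (F k x) (G k x)).2.2, ?_⟩
    rw [mul_assoc, mul_assoc, ← mul_add, ← e1, ← hu, Units.inv_mul]

theorem PRD.dvd {F G : FP ι} (hF : PRP F) (hG : PRP G) :
    PRD (fun k _ x => F k x ∣ G k x) :=
  (PRD.zeroP (PRP.divMod hG hF).2).congr fun _ _ _ => EuclideanDomain.mod_eq_zero.symm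

end Pool.Agent.PRc
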