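import Pool.Agent.PRc.Basic

/-!
# Package PRc-Normal: piecewise rational functions are quotients of polynomials on pieces

Complete proof of `normal1` (one function), by induction on `PRF F`; the index type `Fin τ` may be
replaced by an arbitrary finite type during the induction (transport along `Fintype.equivFin`).

* `var`, `int`: no test polynomials, `N` the variable (the constant), `D = 1`.
* `add`, `mul`: test polynomials of both functions (`Sum`), `N₁ D₂ + N₂ D₁`, `D₁ D₂`.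
* `inv`: the test polynomials `T` of `F` and all the polynomials `N P`, `P` a pattern (a subset of
  the finite index type; finitely many). If `N P` vanishes then the value is `0 / 1`, otherwise
  `D P / N P`.
* `ite`: the test polynomials of `F`, `G`, `H` and all the `N P` of `F`.

`normal`: for finitely many functions: by `normal1` for each, test polynomials `Sigma` type, common
denominator the product of the denominators.
-/

set_option autoImplicit false

namespace Pool.Agent.PRc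

open Polynomial
open scoped Classical

variable {ι : Type}

/-- the pattern: which test polynomials vanish at `x` -/
def ptn {ι α : Type} {k : Type} [Field k] (T : α → MvPolynomial ι ℤ) (x : ι → k) : α → Prop :=
  fun a => MvPolynomial.aeval x (T a) = 0

private theorem normal_aux {F : FF ι} (hF : PRF F) : ∃ (α : Type) (_ : Finite α)
    (T : α → MvPolynomial ι ℤ) (N D : (α → Prop) → MvPolynomial ι ℤ),
      ∀ (k : Type) [Field k] (x : ι → k),
      MvPolynomial.aeval x (D (ptn T x)) ≠ 0 ∧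
      F k x = MvPolynomial.aeval x (N (ptn T x)) / MvPolynomial.aeval x (D (ptn T x)) := by
  induction hF with
  | var i =>
    exact ⟨Fin 0, inferInstance, fun _ => 0, fun _ => MvPolynomial.X i, fun _ => 1,
      fun k _ x => by simp⟩
  | int z =>
    exact ⟨Fin 0, inferInstance, fun _ => 0, fun _ => MvPolynomial.C z, fun _ => 1,
      fun k _ x => by simp⟩
  | @add F G _ _ h1 h2 =>
    obtain ⟨α₁, f₁, T₁, N₁, D₁, H₁⟩ := h1
    obtain ⟨α₂, f₂, T₂, N₂, D₂, H₂⟩ := h2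
    refine ⟨α₁ ⊕ α₂, inferInstance, Sum.elim T₁ T₂,
      fun P => N₁ (fun a => P (Sum.inl a)) * D₂ (fun a => P (Sum.inr a)) +
        N₂ (fun a => P (Sum.inr a)) * D₁ (fun a => P (Sum.inl a)),
      fun P => D₁ (fun a => P (Sum.inl a)) * D₂ (fun a => P (Sum.inr a)), fun k _ x => ?_⟩
    obtain ⟨h1, h2⟩ := H₁ k x
    obtain ⟨h3, h4⟩ := H₂ k x
    have e1 : (fun a => ptn (Sum.elim T₁ T₂) x (Sum.inl a)) = ptn T₁ x := rfl
    have e2 : (fun a => ptn (Sum.elim T₁ T₂) x (Sum.inr a)) = ptn T₂ x := rfl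
    simp only [e1, e2, map_mul, map_add]
    refine ⟨mul_ne_zero h1 h3, ?_⟩
    rw [h2, h4, div_add_div _ _ h1 h3]
    congr 1
    ring
  | @mul F G _ _ h1 h2 =>
    obtain ⟨α₁, f₁, T₁, N₁, D₁, H₁⟩ := h1
    obtain ⟨α₂, f₂, T₂, N₂, D₂, H₂⟩ := h2
    refine ⟨α₁ ⊕ α₂, inferInstance, Sum.elim T₁ T₂,
      fun P => N₁ (fun a => P (Sum.inl a)) * N₂ (fun a => P (Sum.inr a)),
      fun P => D₁ (fun a => P (Sum.inl a)) * D₂ (fun a => P (Sum.inr a)), fun k _ x => ?_⟩
    obtain ⟨h1, h2⟩ := H₁ k x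
    obtain ⟨h3, h4⟩ := H₂ k x
    have e1 : (fun a => ptn (Sum.elim T₁ T₂) x (Sum.inl a)) = ptn T₁ x := rfl
    have e2 : (fun a => ptn (Sum.elim T₁ T₂) x (Sum.inr a)) = ptn T₂ x := rfl
    simp only [e1, e2, map_mul]
    refine ⟨mul_ne_zero h1 h3, ?_⟩
    rw [h2, h4, div_mul_div_comm]
  | @inv F _ h1 =>
    obtain ⟨α₁, f₁, T₁, N₁, D₁, H₁⟩ := h1
    refine ⟨α₁ ⊕ (α₁ → Prop), inferInstance, Sum.elim T₁ N₁,
      fun P => if P (Sum.inr (fun a => P (Sum.inl a))) then 0 else D₁ (fun a => P (Sum.inl a)),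
      fun P => if P (Sum.inr (fun a => P (Sum.inl a))) then 1 else N₁ (fun a => P (Sum.inl a)),
      fun k _ x => ?_⟩
    obtain ⟨h1, h2⟩ := H₁ k x
    have e1 : (fun a => ptn (Sum.elim T₁ N₁) x (Sum.inl a)) = ptn T₁ x := rfl
    have e2 : ptn (Sum.elim T₁ N₁) x (Sum.inr (ptn T₁ x)) =
      (MvPolynomial.aeval x (N₁ (ptn T₁ x)) = 0) := rfl
    simp only [e1, e2]
    by_cases h : MvPolynomial.aeval x (N₁ (ptn T₁ x)) = 0
    · simp only [if_pos h, map_one, map_zero]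
      exact ⟨one_ne_zero, by rw [h2, h]; simp⟩
    · simp only [if_neg h]
      exact ⟨h, by rw [h2, inv_div]⟩
  | @ite F G H _ _ _ h1 h2 h3 =>
    obtain ⟨α₁, f₁, T₁, N₁, D₁, H₁⟩ := h1
    obtain ⟨α₂, f₂, T₂, N₂, D₂, H₂⟩ := h2
    obtain ⟨α₃, f₃, T₃, N₃, D₃, H₃⟩ := h3
    refine ⟨(α₁ ⊕ (α₁ → Prop)) ⊕ (α₂ ⊕ α₃), inferInstance,
      Sum.elim (Sum.elim T₁ N₁) (Sum.elim T₂ T₃),
      fun P => if P (Sum.inl (Sum.inr (fun a => P (Sum.inl (Sum.inl a))))) then
        N₂ (fun a => P (Sum.inr (Sum.inl a))) else N₃ (fun a => P (Sum.inr (Sum.inr a))),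
      fun P => if P (Sum.inl (Sum.inr (fun a => P (Sum.inl (Sum.inl a))))) then
        D₂ (fun a => P (Sum.inr (Sum.inl a))) else D₃ (fun a => P (Sum.inr (Sum.inr a))),
      fun k _ x => ?_⟩
    obtain ⟨h1, h2⟩ := H₁ k x
    obtain ⟨h3, h4⟩ := H₂ k x
    obtain ⟨h5, h6⟩ := H₃ k x
    have e1 : (fun a => ptn (Sum.elim (Sum.elim T₁ N₁) (Sum.elim T₂ T₃)) x
      (Sum.inl (Sum.inl a))) = ptn T₁ x := rfl
    have e2 : ptn (Sum.elim (Sum.elim T₁ N₁) (Sum.elim T₂ T₃)) x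
      (Sum.inl (Sum.inr (ptn T₁ x))) = (MvPolynomial.aeval x (N₁ (ptn T₁ x)) = 0) := rfl
    have e3 : (fun a => ptn (Sum.elim (Sum.elim T₁ N₁) (Sum.elim T₂ T₃)) x
      (Sum.inr (Sum.inl a))) = ptn T₂ x := rfl
    have e4 : (fun a => ptn (Sum.elim (Sum.elim T₁ N₁) (Sum.elim T₂ T₃)) x
      (Sum.inr (Sum.inr a))) = ptn T₃ x := rfl
    simp only [e1, e2, e3, e4]
    have e5 : F k x = 0 ↔ MvPolynomial.aeval x (N₁ (ptn T₁ x)) = 0 := by
      rw [h2, div_eq_zero_iff]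
      exact or_iff_left h1
    by_cases h : MvPolynomial.aeval x (N₁ (ptn T₁ x)) = 0
    · rw [if_pos h, if_pos h, if_pos (e5.2 h)]
      exact ⟨h3, h4⟩
    · rw [if_neg h, if_neg h, if_neg fun h' => h (e5.1 h')]
      exact ⟨h5, h6⟩

theorem normal1 {F : FF ι} (hF : PRF F) : ∃ (τ : ℕ) (T : Fin τ → MvPolynomial ι ℤ)
    (N D : (Fin τ → Prop) → MvPolynomial ι ℤ), ∀ (k : Type) [Field k] (x : ι → k),
      MvPolynomial.aeval x (D (ptn T x)) ≠ 0 ∧
      F k x = MvPolynomial.aeval x (N (ptn T x)) / MvPolynomial.aeval x (D (ptn T x)) := by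
  obtain ⟨α, f, T, N, D, H⟩ := normal_aux hF
  obtain ⟨n, ⟨e⟩⟩ := Finite.exists_equiv_fin α
  refine ⟨n, fun i => T (e.symm i), fun P => N (fun a => P (e a)), fun P => D (fun a => P (e a)),
    fun k _ x => ?_⟩
  have e1 : (fun a => ptn (fun i => T (e.symm i)) x (e a)) = ptn T x := by
    funext a
    simp only [ptn, Equiv.symm_apply_apply]
  simp only [e1]
  exact H k x

theorem normal {κ : Type} [Fintype κ] {F : κ → FF ι} (hF : ∀ j, PRF (F j)) :
    ∃ (τ : ℕ) (T : Fin τ → MvPolynomial ι ℤ) (N : (Fin τ → Prop) → κ → MvPolynomial ι ℤ)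
      (D : (Fin τ → Prop) → MvPolynomial ι ℤ), ∀ (k : Type) [Field k] (x : ι → k),
      MvPolynomial.aeval x (D (ptn T x)) ≠ 0 ∧
      ∀ j, F j k x = MvPolynomial.aeval x (N (ptn T x) j) /
        MvPolynomial.aeval x (D (ptn T x)) := by
  choose τ T N D H using fun j => normal1 (hF j)
  obtain ⟨n, ⟨e⟩⟩ := Finite.exists_equiv_fin (Σ j, Fin (τ j))
  refine ⟨n, fun i => T (e.symm i).1 (e.symm i).2,
    fun P j => N j (fun a => P (e ⟨j, a⟩)) *
      ∏ i ∈ Finset.univ.erase j, D i (fun a => P (e ⟨i, a⟩)),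
    fun P => ∏ i, D i (fun a => P (e ⟨i, a⟩)), fun k _ x => ?_⟩
  have e1 : ∀ j, (fun a => ptn (fun i => T (e.symm i).1 (e.symm i).2) x (e ⟨j, a⟩)) =
      ptn (T j) x := by
    intro j
    funext a
    have h1 : ∀ z : (Σ j, Fin (τ j)), z = ⟨j, a⟩ → T z.1 z.2 = T j a := by
      rintro _ rfl
      rfl
    have h2 := h1 _ (e.symm_apply_apply ⟨j, a⟩)
    simp only [ptn, h2]
  simp only [e1, map_prod, map_mul]
  refine ⟨Finset.prod_ne_zero_iff.2 fun i _ => (H i k x).1, fun j => ?_⟩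
  rw [← Finset.mul_prod_erase Finset.univ _ (Finset.mem_univ j), (H j k x).2,
    mul_div_mul_right _ _ (Finset.prod_ne_zero_iff.2 fun i _ => (H i k x).1)]

end Pool.Agent.PRc
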