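import Pool.Agent.PRc.Normal
import Pool.Agent.ECD.AlgDefs

/-!
# Package PRc-Alg: piecewise rational functions give laws of families of algebraic groups

Complete proof. Apply `normal` to `G` (index `Fin d`): `T`, `N`, `D`. Take the same `τ` and `T` and
`F P j := N P j`. With `z` the unit `D P x` (nonzero in a field): `N P j = z * G j`. The pattern
`ECD.pat T c x y` is `ptn T (Sum.elim x (Sum.elim y c))` by definition.
-/

set_option autoImplicit false

namespace Pool.Agent.PRc

open Pool.Agent.ECD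
open scoped Classical

theorem law_of_prf {d e : ℕ} {G : Fin d → FF (Fin d ⊕ Fin d ⊕ Fin e)} (hG : ∀ i, PRF (G i)) :
    ∃ (τ : ℕ) (T : Fin τ → MvPolynomial (Fin d ⊕ Fin d ⊕ Fin e) ℤ)
      (F : (Fin τ → Prop) → Law d e), ∀ (k : Type) [Field k] (c : Fin e → k) (x y : Fin d → k),
      ∃ z : kˣ, ∀ i, (F (pat T c x y)).ev c x y i = z * G i k (Sum.elim x (Sum.elim y c)) := by
  obtain ⟨τ, T, N, D, h⟩ := normal hG
  refine ⟨τ, T, fun P j => N P j, fun k _ c x y => ?_⟩
  obtain ⟨h0, h1⟩ := h k (Sum.elim x (Sum.elim y c))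
  refine ⟨Units.mk0 _ h0, fun i => ?_⟩
  rw [h1 i, Units.val_mk0, mul_div_cancel₀ _ h0]
  rfl

end Pool.Agent.PRc
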