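import Pool.Agent.PRc.Defs

/-!
# Package PRc-Basic: closure of piecewise rational functions and relations

Complete proofs.

* `PRF.congr`: `F = G` by `funext` (three times; the instance argument as well), then rewrite.
* `PRF.comp`: induction on `PRF F`.
* `neg` is `(-1) * F`; `sub`, `div` (`div_eq_mul_inv`), `pow` (induction), `sum`, `prod`
  (`Finset.induction_on` on `Finset.univ`, or on any finite set) are then easy.
* `PRD`: `PRD P` gives `if P then 1 else 0`; `not`: `PRF.ite` with this function as `F` (if it is `0`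
  then `1` else `0`), `and`: product, `or` by de Morgan, `PRD.eq`: `PRF.ite` applied to `F - G`.
* `PRF.iteD`: `PRF.ite` with `F` the characteristic function: `if χ = 0 then H else G`, `χ = 0 ↔ ¬ P`
  as `(1 : k) ≠ 0`.
-/

set_option autoImplicit false

namespace Pool.Agent.PRc

open Polynomial
open scoped Classical

variable {ι : Type}

theorem PRF.congr {F G : FF ι} (hF : PRF F) (h : ∀ (k : Type) [Field k] (x : ι → k),
    G k x = F k x) : PRF G := by
  have e : G = F := by
    funext k inst x
    exact h k x
  rw [e]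
  exact hF

theorem PRF.comp {κ : Type} {F : FF κ} (hF : PRF F) {G : κ → FF ι} (hG : ∀ j, PRF (G j)) :
    PRF (fun k _ x => F k (fun j => G j k x)) := by
  induction hF with
  | var i => exact hG i
  | int z => exact PRF.int z
  | add _ _ h1 h2 => exact h1.add h2
  | mul _ _ h1 h2 => exact h1.mul h2
  | inv _ h1 => exact h1.inv
  | ite _ _ _ h1 h2 h3 => exact h1.ite h2 h3

theorem PRF.nat (n : ℕ) : PRF (ι := ι) (fun k _ _ => (n : k)) :=
  (PRF.int (n : ℤ)).congr fun k _ x => by simp

theorem PRF.zero : PRF (ι := ι) (fun k _ _ => (0 : k)) :=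
  (PRF.int 0).congr fun k _ x => by simp

theorem PRF.one : PRF (ι := ι) (fun k _ _ => (1 : k)) :=
  (PRF.int 1).congr fun k _ x => by simp

theorem PRF.neg {F : FF ι} (hF : PRF F) : PRF (fun k _ x => -F k x) :=
  ((PRF.int (-1)).mul hF).congr fun k _ x => by simp

theorem PRF.sub {F G : FF ι} (hF : PRF F) (hG : PRF G) : PRF (fun k _ x => F k x - G k x) :=
  (hF.add hG.neg).congr fun k _ x => by rw [sub_eq_add_neg]

theorem PRF.div {F G : FF ι} (hF : PRF F) (hG : PRF G) : PRF (fun k _ x => F k x / G k x) :=
  (hF.mul hG.inv).congr fun k _ x => by rw [div_eq_mul_inv]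

theorem PRF.pow {F : FF ι} (hF : PRF F) (n : ℕ) : PRF (fun k _ x => F k x ^ n) := by
  induction n with
  | zero => exact PRF.one.congr fun k _ x => by simp
  | succ n ih => exact (ih.mul hF).congr fun k _ x => by rw [pow_succ]

theorem PRF.sum {α : Type*} (s : Finset α) {F : α → FF ι} (hF : ∀ a ∈ s, PRF (F a)) :
    PRF (fun k _ x => ∑ a ∈ s, F a k x) := by
  induction s using Finset.induction_on with
  | empty => exact PRF.zero.congr fun k _ x => by simp
  | insert a s ha ih =>
    exact ((hF a (Finset.mem_insert_self a s)).add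
      (ih fun b hb => hF b (Finset.mem_insert_of_mem hb))).congr
      fun k _ x => by rw [Finset.sum_insert ha]

theorem PRF.prod {α : Type*} (s : Finset α) {F : α → FF ι} (hF : ∀ a ∈ s, PRF (F a)) :
    PRF (fun k _ x => ∏ a ∈ s, F a k x) := by
  induction s using Finset.induction_on with
  | empty => exact PRF.one.congr fun k _ x => by simp
  | insert a s ha ih =>
    exact ((hF a (Finset.mem_insert_self a s)).mul
      (ih fun b hb => hF b (Finset.mem_insert_of_mem hb))).congr
      fun k _ x => by rw [Finset.prod_insert ha]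

theorem PRF.iteD {P : FR ι} {G H : FF ι} (hP : PRD P) (hG : PRF G) (hH : PRF H) :
    PRF (fun k _ x => if P k x then G k x else H k x) :=
  (PRF.ite hP hH hG).congr fun k _ x => by
    by_cases h : P k x <;> simp [h]

theorem PRD.congr {P Q : FR ι} (hP : PRD P) (h : ∀ (k : Type) [Field k] (x : ι → k),
    Q k x ↔ P k x) : PRD Q :=
  PRF.congr hP fun k _ x => by
    by_cases h1 : P k x
    · rw [if_pos h1, if_pos ((h k x).mpr h1)]
    · rw [if_neg h1, if_neg fun h2 => h1 ((h k x).mp h2)]

theorem PRD.true : PRD (ι := ι) (fun _ _ _ => True) :=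
  PRF.one.congr fun k _ x => by simp

theorem PRD.false : PRD (ι := ι) (fun _ _ _ => False) :=
  PRF.zero.congr fun k _ x => by simp

theorem PRD.not {P : FR ι} (hP : PRD P) : PRD (fun k _ x => ¬ P k x) :=
  (PRF.iteD hP PRF.zero PRF.one).congr fun k _ x => by
    by_cases h : P k x <;> simp [h]

theorem PRD.and {P Q : FR ι} (hP : PRD P) (hQ : PRD Q) : PRD (fun k _ x => P k x ∧ Q k x) :=
  (PRF.iteD hP hQ PRF.zero).congr fun k _ x => by
    by_cases h : P k x <;> simp [h]

theorem PRD.or {P Q : FR ι} (hP : PRD P) (hQ : PRD Q) : PRD (fun k _ x => P k x ∨ Q k x) :=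
  (PRF.iteD hP PRF.one hQ).congr fun k _ x => by
    by_cases h : P k x <;> simp [h]

theorem PRD.eq {F G : FF ι} (hF : PRF F) (hG : PRF G) : PRD (fun k _ x => F k x = G k x) :=
  (PRF.ite (hF.sub hG) PRF.one PRF.zero).congr fun k _ x => by
    by_cases h : F k x = G k x
    · rw [if_pos h, if_pos (sub_eq_zero.mpr h)]
    · rw [if_neg h, if_neg fun h2 => h (sub_eq_zero.mp h2)]

theorem PRD.all {α : Type*} (s : Finset α) {P : α → FR ι} (hP : ∀ a ∈ s, PRD (P a)) :
    PRD (fun k _ x => ∀ a ∈ s, P a k x) := by
  induction s using Finset.induction_on with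
  | empty => exact PRD.true.congr fun k _ x => by simp
  | insert a s ha ih =>
    exact ((hP a (Finset.mem_insert_self a s)).and
      (ih fun b hb => hP b (Finset.mem_insert_of_mem hb))).congr
      fun k _ x => by rw [Finset.forall_mem_insert]

theorem PRD.any {α : Type*} (s : Finset α) {P : α → FR ι} (hP : ∀ a ∈ s, PRD (P a)) :
    PRD (fun k _ x => ∃ a ∈ s, P a k x) := by
  induction s using Finset.induction_on with
  | empty => exact PRD.false.congr fun k _ x => by simp
  | insert a s ha ih =>
    exact ((hP a (Finset.mem_insert_self a s)).or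
      (ih fun b hb => hP b (Finset.mem_insert_of_mem hb))).congr
      fun k _ x => by rw [Finset.exists_mem_insert]

theorem PRD.comp {κ : Type} {P : FR κ} (hP : PRD P) {G : κ → FF ι} (hG : ∀ j, PRF (G j)) :
    PRD (fun k _ x => P k (fun j => G j k x)) :=
  PRF.comp hP hG

end Pool.Agent.PRc
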