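import Mathlib

/-!
# Piecewise rational functions, uniformly in all fields: definitions

Project HYP (`MP_a56640_lc`): the number of the solutions of `y ^ 2 = f(x)` modulo `m`, for every fixed
degree of `f`, has a bounded formula graph.

`PRF F`: the family `F` of functions `k^ι → k` (one for each field `k`) is generated from the
coordinates and the integers by sums, products, inverses (`0⁻¹ = 0`) and case distinctions
`if F = 0 then G else H`. `PRD`: decidable relations, `PRP`: polynomials of bounded degree.
-/

set_option autoImplicit false

namespace Pool.Agent.PRc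

open Polynomial
open scoped Classical

/-- families of functions, one for each field -/
abbrev FF (ι : Type) : Type 1 := ∀ (k : Type) [Field k], (ι → k) → k

/-- families of relations, one for each field -/
abbrev FR (ι : Type) : Type 1 := ∀ (k : Type) [Field k], (ι → k) → Prop

/-- families of polynomials, one for each field -/
abbrev FP (ι : Type) : Type 1 := ∀ (k : Type) [Field k], (ι → k) → k[X]

/-- piecewise rational functions with integer coefficients -/
inductive PRF {ι : Type} : FF ι → Prop
  | var (i : ι) : PRF (fun _ _ x => x i)
  | int (z : ℤ) : PRF (fun k _ _ => (z : k))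
  | add {F G : FF ι} : PRF F → PRF G → PRF (fun k _ x => F k x + G k x)
  | mul {F G : FF ι} : PRF F → PRF G → PRF (fun k _ x => F k x * G k x)
  | inv {F : FF ι} : PRF F → PRF (fun k _ x => (F k x)⁻¹)
  | ite {F G H : FF ι} : PRF F → PRF G → PRF H →
      PRF (fun k _ x => if F k x = 0 then G k x else H k x)

/-- the relations decided by piecewise rational functions -/
def PRD {ι : Type} (P : FR ι) : Prop := PRF (fun k _ x => if P k x then (1 : k) else 0)

/-- the polynomials of bounded degree whose coefficients are piecewise rational functions -/
def PRP {ι : Type} (F : FP ι) : Prop :=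
  (∃ D : ℕ, ∀ (k : Type) [Field k] (x : ι → k), (F k x).natDegree ≤ D) ∧
    ∀ i : ℕ, PRF (fun k _ x => (F k x).coeff i)

/-- the extended Euclidean algorithm with at most `N` steps: `(d, s, t)` with `d = s a + t b` -/
noncomputable def xg {k : Type} [Field k] : ℕ → k[X] → k[X] → k[X] × k[X] × k[X]
  | 0, a, _ => (a, 1, 0)
  | N + 1, a, b => if b = 0 then (a, 1, 0) else
      ((xg N b (a % b)).1, (xg N b (a % b)).2.2,
        (xg N b (a % b)).2.1 - a / b * (xg N b (a % b)).2.2)

end Pool.Agent.PRc
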