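import Pool.Agent.PRc.Poly

/-!
# Package PRc-Div: division with remainder

Complete proof. `F / G` and `F % G` are the operations of the Euclidean domain `k[X]`
(`Polynomial.div_def`, `Polynomial.mod_def`, `F / 0 = 0`, `F % 0 = F`).

It is enough to treat the case that the degree of `G` is a fixed number `e` (case distinction with
`PRD.degEq` and `PRP.iteD`, finitely many `e ≤ E`) and `G ≠ 0` (`PRD.zeroP`). Prove by induction on
`D` that for all `F` with `natDegree ≤ D` everywhere the two families are in `PRP`: if
`natDegree F < e` then `F / G = 0`, `F % G = F` (`div_eq_zero_iff`, `mod_eq_self_iff`; for `e = 0`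
see below). Otherwise put `F' = F - C (F.coeff D / G.coeff e) * X ^ (D - e) * G`; it has
`natDegree ≤ D - 1` (for `D ≥ 1`; for `D = 0 = e` it is `0`), and
`F / G = C (F.coeff D / G.coeff e) * X ^ (D - e) + F' / G`, `F % G = F' % G` (these follow from the
uniqueness of division with remainder, `Polynomial.div_modByMonic_unique`, or from
`EuclideanDomain.div_add_mod` and `Polynomial.add_mod`/`mul_mod_left`/`add_div`); here `G` may be
replaced by `if natDegree G = e ∧ G ≠ 0 then G else X ^ e`, so that these identities hold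
everywhere.
-/

set_option autoImplicit false

namespace Pool.Agent.PRc

open Polynomial
open scoped Classical

variable {ι : Type}

private theorem red_Div {k : Type} [Field k] {F G : k[X]} (hG : G ≠ 0) {D e : ℕ}
    (he : G.natDegree = e) (hD : e ≤ D) (hF : F.degree < ((D + 1 : ℕ) : WithBot ℕ)) :
    (F - Polynomial.C (F.coeff D / G.coeff e) * Polynomial.X ^ (D - e) * G).degree <
        (D : WithBot ℕ) ∧
      F / G = Polynomial.C (F.coeff D / G.coeff e) * Polynomial.X ^ (D - e) +
        (F - Polynomial.C (F.coeff D / G.coeff e) * Polynomial.X ^ (D - e) * G) / G ∧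
      F % G = (F - Polynomial.C (F.coeff D / G.coeff e) * Polynomial.X ^ (D - e) * G) % G := by
  have hc : G.coeff e ≠ 0 := by
    rw [← he]
    exact Polynomial.leadingCoeff_ne_zero.2 hG
  set q := Polynomial.C (F.coeff D / G.coeff e) * Polynomial.X ^ (D - e) with hq
  have hdeg : (F - q * G).degree < (D : WithBot ℕ) := by
    rw [Polynomial.degree_lt_iff_coeff_zero] at hF ⊢
    intro m hm
    have h1 : (q * G).coeff m = F.coeff D / G.coeff e * G.coeff (m - (D - e)) := by
      rw [hq, mul_assoc, Polynomial.coeff_C_mul, mul_comm (Polynomial.X ^ (D - e)) G,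
        Polynomial.coeff_mul_X_pow', if_pos (by omega)]
    rw [Polynomial.coeff_sub, h1]
    rcases eq_or_lt_of_le hm with rfl | hm'
    · have h2 : D - (D - e) = e := by omega
      rw [h2, div_mul_cancel₀ _ hc, sub_self]
    · have h3 : G.coeff (m - (D - e)) = 0 :=
        Polynomial.coeff_eq_zero_of_natDegree_lt (by omega)
      rw [hF m (by omega), h3, mul_zero, sub_self]
  have hmod : F % G = (F - q * G) % G := by
    have h1 : F = (F - q * G) + q * G := by ring
    conv_lhs => rw [h1]
    rw [Polynomial.add_mod, EuclideanDomain.mod_eq_zero.2 (dvd_mul_left G q), add_zero]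
  refine ⟨hdeg, ?_, hmod⟩
  have h2 : G * (F / G) = G * (q + (F - q * G) / G) := by
    have h3 := EuclideanDomain.div_add_mod F G
    have h4 := EuclideanDomain.div_add_mod (F - q * G) G
    rw [← hmod] at h4
    linear_combination h3 - h4
  exact mul_left_cancel₀ hG h2

private theorem aux_Div {G : FP ι} (hG : PRP G) (e : ℕ)
    (h1 : ∀ (k : Type) [Field k] (x : ι → k), (G k x).natDegree = e)
    (h2 : ∀ (k : Type) [Field k] (x : ι → k), G k x ≠ 0) :
    ∀ (D : ℕ) {F : FP ι}, PRP F → (∀ (k : Type) [Field k] (x : ι → k),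
      (F k x).degree < (D : WithBot ℕ)) →
      PRP (fun k _ x => F k x / G k x) ∧ PRP (fun k _ x => F k x % G k x) := by
  intro D
  induction D with
  | zero =>
    intro F _ hd
    have h0 : ∀ (k : Type) [Field k] (x : ι → k), F k x = 0 := by
      intro k _ x
      have := hd k x
      rw [Polynomial.degree_lt_iff_coeff_zero] at this
      ext m
      exact this m (Nat.zero_le m)
    refine ⟨PRP.zero.congr ?_, PRP.zero.congr ?_⟩
    · intro k _ x
      simp only [h0 k x, EuclideanDomain.zero_div]
    · intro k _ x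
      simp only [h0 k x, EuclideanDomain.zero_mod]
  | succ D ih =>
    intro F hF hd
    by_cases hDe : e ≤ D
    · have hq : PRP (fun k _ x =>
          Polynomial.C ((F k x).coeff D / (G k x).coeff e) * Polynomial.X ^ (D - e)) :=
        (PRP.C ((hF.2 D).div (hG.2 e))).mul (PRP.X.pow (D - e))
      obtain ⟨i1, i2⟩ := ih (hF.sub (hq.mul hG)) fun k _ x =>
        (red_Div (h2 k x) (h1 k x) hDe (hd k x)).1
      exact ⟨(hq.add i1).congr fun k _ x => (red_Div (h2 k x) (h1 k x) hDe (hd k x)).2.1,
        i2.congr fun k _ x => (red_Div (h2 k x) (h1 k x) hDe (hd k x)).2.2⟩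
    · have hlt : ∀ (k : Type) [Field k] (x : ι → k), (F k x).degree < (G k x).degree := by
        intro k _ x
        rw [Polynomial.degree_eq_natDegree (h2 k x), h1 k x]
        exact lt_of_lt_of_le (hd k x) (by exact_mod_cast (by omega : D + 1 ≤ e))
      exact ⟨PRP.zero.congr fun k _ x => (Polynomial.div_eq_zero_iff (h2 k x)).2 (hlt k x),
        hF.congr fun k _ x => (Polynomial.mod_eq_self_iff (h2 k x)).2 (hlt k x)⟩

private def cnd_Div (G : FP ι) (e : ℕ) : FR ι := fun k _ x => (G k x).natDegree = e ∧ ¬ G k x = 0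

private theorem cndD_Div {G : FP ι} (hG : PRP G) (e : ℕ) : PRD (cnd_Div G e) :=
  ((PRD.degEq hG e).and (PRD.zeroP hG).not)

theorem PRP.divMod {F G : FP ι} (hF : PRP F) (hG : PRP G) :
    PRP (fun k _ x => F k x / G k x) ∧ PRP (fun k _ x => F k x % G k x) := by
  obtain ⟨D, hD⟩ := hF.1
  obtain ⟨E, hE⟩ := hG.1
  have hFd : ∀ (k : Type) [Field k] (x : ι → k), (F k x).degree < ((D + 1 : ℕ) : WithBot ℕ) := by
    intro k _ x
    rw [Polynomial.degree_lt_iff_coeff_zero]
    intro m hm
    exact Polynomial.coeff_eq_zero_of_natDegree_lt (lt_of_le_of_lt (hD k x) (by omega))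
  have hGe : ∀ e : ℕ, PRP (fun k _ x => if cnd_Div G e k x then G k x else Polynomial.X ^ e) :=
    fun e => PRP.iteD (cndD_Div hG e) hG (PRP.X.pow e)
  have hm := fun e : ℕ => aux_Div (hGe e) e
    (fun k _ x => by
      by_cases h : cnd_Div G e k x
      · simp only [if_pos h]
        exact h.1
      · simp only [if_neg h, Polynomial.natDegree_X_pow])
    (fun k _ x => by
      by_cases h : cnd_Div G e k x
      · simp only [if_pos h]
        exact h.2
      · simp only [if_neg h]
        exact pow_ne_zero _ Polynomial.X_ne_zero) (D + 1) hF hFd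
  have key : ∀ (k : Type) [Field k] (x : ι → k), G k x ≠ 0 → ∀ H : ℕ → k[X],
      (∑ e ∈ Finset.range (E + 1), if cnd_Div G e k x then H e else 0) =
        H (G k x).natDegree := by
    intro k _ x h0 H
    rw [Finset.sum_eq_single (G k x).natDegree]
    · exact if_pos ⟨rfl, h0⟩
    · intro e _ he
      exact if_neg fun h => he h.1.symm
    · intro h
      exact absurd (Finset.mem_range.2 (Nat.lt_succ_of_le (hE k x))) h
  have key0 : ∀ (k : Type) [Field k] (x : ι → k), G k x = 0 → ∀ H : ℕ → k[X],
      (∑ e ∈ Finset.range (E + 1), if cnd_Div G e k x then H e else 0) = 0 := by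
    intro k _ x h0 H
    exact Finset.sum_eq_zero fun e _ => if_neg fun h => h.2 h0
  constructor
  · refine (PRP.sum (Finset.range (E + 1)) fun e _ =>
      PRP.iteD (cndD_Div hG e) (hm e).1 PRP.zero).congr ?_
    intro k _ x
    by_cases h0 : G k x = 0
    · rw [key0 k x h0, h0, EuclideanDomain.div_zero]
    · rw [key k x h0]
      have h : cnd_Div G (G k x).natDegree k x := ⟨rfl, h0⟩
      simp only [if_pos h]
  · refine ((PRP.iteD (PRD.zeroP hG) hF PRP.zero).add
      (PRP.sum (Finset.range (E + 1)) fun e _ =>
        PRP.iteD (cndD_Div hG e) (hm e).2 PRP.zero)).congr ?_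
    intro k _ x
    by_cases h0 : G k x = 0
    · rw [key0 k x h0, if_pos h0, h0, EuclideanDomain.mod_zero, add_zero]
    · rw [key k x h0, if_neg h0, zero_add]
      have h : cnd_Div G (G k x).natDegree k x := ⟨rfl, h0⟩
      simp only [if_pos h]

end Pool.Agent.PRc
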