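import Pool.Agent.PRc.Defs

/-!
# Linear algebra of bounded size with piecewise rational functions: definitions

* `kp a A`: the projection onto the kernel of the matrix `A` with `a` rows, by rank one updates;
* `lsv A y`: a solution of `A x = y` if there is one;
* `rk a A`: the rank.
-/

set_option autoImplicit false

noncomputable section

namespace Pool.Agent.PRc

open scoped Classical

variable {k : Type} [Field k]

/-- One step: `K - K e_j w / w_j` with `w = r K` and the first `j` with `w_j ≠ 0` (and `K` if
`w = 0`). -/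
def kst {b : ℕ} (K : Matrix (Fin b) (Fin b) k) (r : Fin b → k) : Matrix (Fin b) (Fin b) k :=
  fun i l => K i l - ∑ j : Fin b,
    if Matrix.vecMul r K j ≠ 0 ∧ ∀ j' < j, Matrix.vecMul r K j' = 0 then
      K i j * Matrix.vecMul r K l / Matrix.vecMul r K j else 0

/-- the projection onto the kernel -/
def kp {b : ℕ} : (a : ℕ) → Matrix (Fin a) (Fin b) k → Matrix (Fin b) (Fin b) k
  | 0, _ => 1
  | a + 1, A => kst (kp a fun i => A i.castSucc) (A (Fin.last a))

/-- the number of the nonzero steps -/
def rk {b : ℕ} : (a : ℕ) → Matrix (Fin a) (Fin b) k → ℕ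
  | 0, _ => 0
  | a + 1, A => rk a (fun i => A i.castSucc) +
      if Matrix.vecMul (A (Fin.last a)) (kp a fun i => A i.castSucc) = 0 then 0 else 1

/-- the matrix `(-y | A)` -/
def aug {a b : ℕ} (A : Matrix (Fin a) (Fin b) k) (y : Fin a → k) : Matrix (Fin a) (Fin (b + 1)) k :=
  fun i => Fin.cons (-y i) (A i)

/-- a solution of `A x = y` if there is one -/
def lsv {a b : ℕ} (A : Matrix (Fin a) (Fin b) k) (y : Fin a → k) : Fin b → k :=
  fun i => ∑ j : Fin (b + 1),
    if kp a (aug A y) 0 j ≠ 0 ∧ ∀ j' < j, kp a (aug A y) 0 j' = 0 then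
      kp a (aug A y) i.succ j / kp a (aug A y) 0 j else 0

end Pool.Agent.PRc
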