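import Pool.Agent.PRc.LDefs

/-!
# Package PRc-Lin: linear algebra of bounded size

Complete proofs.

* `kst_mul`: let `w = r K`. If `w = 0` the sum is `0`, `kst K r = K`. Otherwise exactly one `j` (the
  first with `w_j ≠ 0`) contributes: `kst K r = K - (K e_j) w / w_j` (`Matrix.vecMulVec`). So
  `r (kst K r) = w - w_j w / w_j = 0`; `s K = 0` implies `s (kst K r) = 0`; `K z = z` and `r z = 0`
  imply `w z = r K z = 0`, so `(kst K r) z = z`.
* `kp_mul`, `kp_fix`: induction on `a` (`Fin.lastCases` for the rows).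
* `lsv_spec`: if `A x = y` then `(1, x)` is in the kernel of `aug A y`, so `kp (1, x) = (1, x)`, so row `0`
  of `kp` is not `0`; for the first `j` with `kp 0 j ≠ 0` the column `j` of `kp` divided by `kp 0 j` is in
  the kernel (`kp_mul`) with coordinate `0` equal to `1`. `solv_iff`: row `0` of `kp` is not `0`.
* `rk_eq`: `Matrix.rank`: by induction: the kernel of the first `a + 1` rows has codimension `1` in the
  kernel of the first `a` rows iff `w ≠ 0` (`w z = r z` on the kernel, whose elements are the `K z`):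
  `finrank ker = b - rk`, `Matrix.rank = rk`.
-/

set_option autoImplicit false

noncomputable section

namespace Pool.Agent.PRc

open scoped Classical

variable {k : Type} [Field k]

private theorem exists_first {n : ℕ} {v : Fin n → k} (h : ∃ j, v j ≠ 0) :
    ∃ j0, v j0 ≠ 0 ∧ ∀ j' < j0, v j' = 0 := by
  obtain ⟨j, hj⟩ := h
  obtain ⟨j0, hj0, hmin⟩ := Finset.exists_min_image (Finset.univ.filter fun j => v j ≠ 0) id
    ⟨j, Finset.mem_filter.2 ⟨Finset.mem_univ _, hj⟩⟩
  rw [Finset.mem_filter] at hj0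
  refine ⟨j0, hj0.2, fun j' hj' => ?_⟩
  by_contra hne
  exact absurd (hmin j' (Finset.mem_filter.2 ⟨Finset.mem_univ _, hne⟩)) (not_le.2 hj')

private theorem sum_first {n : ℕ} {v : Fin n → k} {j0 : Fin n} (h0 : v j0 ≠ 0)
    (h1 : ∀ j' < j0, v j' = 0) (f : Fin n → k) :
    (∑ j : Fin n, if v j ≠ 0 ∧ ∀ j' < j, v j' = 0 then f j else 0) = f j0 := by
  rw [Finset.sum_eq_single j0, if_pos ⟨h0, h1⟩]
  · intro j _ hj
    rw [if_neg]
    rintro ⟨h2, h3⟩
    rcases lt_trichotomy j j0 with h | h | h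
    · exact h2 (h1 j h)
    · exact hj h
    · exact h0 (h3 j0 h)
  · intro h
    exact absurd (Finset.mem_univ _) h

private theorem kst_cases {b : ℕ} (K : Matrix (Fin b) (Fin b) k) (r : Fin b → k) :
    (Matrix.vecMul r K = 0 ∧ kst K r = K) ∨
      ∃ j0, Matrix.vecMul r K j0 ≠ 0 ∧ kst K r =
        K - Matrix.vecMulVec (fun i => K i j0 * (Matrix.vecMul r K j0)⁻¹) (Matrix.vecMul r K) := by
  by_cases h : Matrix.vecMul r K = 0
  · left
    refine ⟨h, ?_⟩
    ext i l
    simp [kst, h]
  · right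
    obtain ⟨j0, h0, h1⟩ := exists_first (Function.ne_iff.1 h)
    refine ⟨j0, h0, ?_⟩
    ext i l
    have h2 := sum_first h0 h1
      (fun j => K i j * Matrix.vecMul r K l / Matrix.vecMul r K j)
    rw [Matrix.sub_apply, Matrix.vecMulVec_apply]
    unfold kst
    rw [h2]
    ring

theorem kst_mul {b : ℕ} (K : Matrix (Fin b) (Fin b) k) (r : Fin b → k) :
    Matrix.vecMul r (kst K r) = 0 ∧
      (∀ s : Fin b → k, Matrix.vecMul s K = 0 → Matrix.vecMul s (kst K r) = 0) ∧
      ∀ z : Fin b → k, Matrix.mulVec K z = z → r ⬝ᵥ z = 0 → Matrix.mulVec (kst K r) z = z := by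
  rcases kst_cases K r with ⟨h, h'⟩ | ⟨j0, h, h'⟩
  · rw [h']
    exact ⟨h, fun s hs => hs, fun z hz _ => hz⟩
  · rw [h']
    have h2 : ∀ s : Fin b → k, (s ⬝ᵥ fun i => K i j0 * (Matrix.vecMul r K j0)⁻¹) =
        Matrix.vecMul s K j0 * (Matrix.vecMul r K j0)⁻¹ := by
      intro s
      simp only [Matrix.vecMul, dotProduct, Finset.sum_mul, mul_assoc]
    refine ⟨?_, fun s hs => ?_, fun z hz hr => ?_⟩
    · rw [Matrix.vecMul_sub, Matrix.vecMul_vecMulVec, h2, mul_inv_cancel₀ h, one_smul, sub_self]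
    · rw [Matrix.vecMul_sub, Matrix.vecMul_vecMulVec, h2, hs]
      simp
    · rw [Matrix.sub_mulVec, Matrix.vecMulVec_mulVec, ← Matrix.dotProduct_mulVec, hz, hr]
      simp

private theorem kp_row {b : ℕ} : ∀ (a : ℕ) (A : Matrix (Fin a) (Fin b) k) (i : Fin a),
    Matrix.vecMul (A i) (kp a A) = 0
  | 0, _, i => i.elim0
  | a + 1, A, i => by
    have h := kst_mul (kp a fun i => A i.castSucc) (A (Fin.last a))
    refine Fin.lastCases ?_ (fun i => ?_) i
    · exact h.1
    · exact h.2.1 _ (kp_row a (fun i => A i.castSucc) i)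

theorem kp_mul {a b : ℕ} (A : Matrix (Fin a) (Fin b) k) : A * kp a A = 0 := by
  ext i j
  exact congrFun (kp_row a A i) j

theorem kp_fix {a b : ℕ} (A : Matrix (Fin a) (Fin b) k) {z : Fin b → k}
    (hz : Matrix.mulVec A z = 0) : Matrix.mulVec (kp a A) z = z := by
  induction a with
  | zero => exact Matrix.one_mulVec z
  | succ a ih =>
    have h := kst_mul (kp a fun i => A i.castSucc) (A (Fin.last a))
    exact h.2.2 z (ih (fun i => A i.castSucc) (funext fun i => congrFun hz i.castSucc))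
      (congrFun hz (Fin.last a))

theorem kp_mem {a b : ℕ} (A : Matrix (Fin a) (Fin b) k) (z : Fin b → k) :
    Matrix.mulVec A (Matrix.mulVec (kp a A) z) = 0 := by
  rw [Matrix.mulVec_mulVec, kp_mul, Matrix.zero_mulVec]

private theorem aug_exists {a b : ℕ} (A : Matrix (Fin a) (Fin b) k) {y : Fin a → k}
    (h : ∃ x, Matrix.mulVec A x = y) : ∃ j, kp a (aug A y) 0 j ≠ 0 := by
  obtain ⟨x, hx⟩ := h
  have h1 : Matrix.mulVec (aug A y) (Fin.cons 1 x) = 0 := by
    ext i
    simp only [Matrix.mulVec, dotProduct, aug, Fin.sum_univ_succ, Fin.cons_zero, Fin.cons_succ]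
    rw [← congrFun hx i]
    simp [Matrix.mulVec, dotProduct]
  have h2 := congrFun (kp_fix (aug A y) h1) 0
  by_contra hne
  push Not at hne
  simp [Matrix.mulVec, dotProduct, hne] at h2

private theorem aug_solves {a b : ℕ} (A : Matrix (Fin a) (Fin b) k) {y : Fin a → k}
    {j : Fin (b + 1)} (h : kp a (aug A y) 0 j ≠ 0) :
    Matrix.mulVec A (fun i => kp a (aug A y) i.succ j / kp a (aug A y) 0 j) = y := by
  ext i
  have h1 : (aug A y * kp a (aug A y)) i j = 0 := by rw [kp_mul]; rfl
  rw [Matrix.mul_apply, Fin.sum_univ_succ] at h1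
  have h2 : aug A y i 0 = - y i := rfl
  have h3 : ∀ l : Fin b, aug A y i l.succ = A i l := fun l => rfl
  simp only [h2, h3] at h1
  simp only [Matrix.mulVec, dotProduct, mul_div_assoc']
  rw [← Finset.sum_div, div_eq_iff h]
  linear_combination h1

theorem lsv_spec {a b : ℕ} (A : Matrix (Fin a) (Fin b) k) {y : Fin a → k}
    (h : ∃ x, Matrix.mulVec A x = y) : Matrix.mulVec A (lsv A y) = y := by
  obtain ⟨j0, h0, h1⟩ := exists_first (aug_exists A h)
  have h2 : lsv A y = fun i => kp a (aug A y) i.succ j0 / kp a (aug A y) 0 j0 :=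
    funext fun i => sum_first h0 h1
      (fun j => kp a (aug A y) i.succ j / kp a (aug A y) 0 j)
  rw [h2]
  exact aug_solves A h0

theorem solv_iff {a b : ℕ} (A : Matrix (Fin a) (Fin b) k) (y : Fin a → k) :
    (∃ x, Matrix.mulVec A x = y) ↔ ∃ j, kp a (aug A y) 0 j ≠ 0 :=
  ⟨aug_exists A, fun ⟨_, hj⟩ => ⟨_, aug_solves A hj⟩⟩

theorem ker_iff {a b : ℕ} (A : Matrix (Fin a) (Fin b) k) :
    (∃ x, x ≠ 0 ∧ Matrix.mulVec A x = 0) ↔ ∃ i j, kp a A i j ≠ 0 := by
  constructor
  · rintro ⟨x, hx, h⟩
    by_contra hne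
    push Not at hne
    have h1 : kp a A = 0 := by ext i j; exact hne i j
    have h2 := kp_fix A h
    rw [h1, Matrix.zero_mulVec] at h2
    exact hx h2.symm
  · rintro ⟨i, j, h⟩
    refine ⟨fun l => kp a A l j, fun h0 => h (congrFun h0 i), ?_⟩
    ext l
    have h1 : (A * kp a A) l j = 0 := by rw [kp_mul]; rfl
    exact h1

private theorem dot_lin {b : ℕ} (r : Fin b → k) :
    ∃ f : (Fin b → k) →ₗ[k] k, ∀ z, f z = r ⬝ᵥ z :=
  ⟨{ toFun := fun z => r ⬝ᵥ z
     map_add' := fun x y => dotProduct_add r x y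
     map_smul' := fun c x => dotProduct_smul c r x }, fun _ => rfl⟩

private theorem ker_step {a b : ℕ} (A : Matrix (Fin (a + 1)) (Fin b) k) :
    Module.finrank k (LinearMap.ker (Matrix.mulVecLin fun i : Fin a => A i.castSucc)) =
      Module.finrank k (LinearMap.ker A.mulVecLin) +
        if Matrix.vecMul (A (Fin.last a)) (kp a fun i => A i.castSucc) = 0 then 0 else 1 := by
  set B : Matrix (Fin a) (Fin b) k := fun i => A i.castSucc with hB
  obtain ⟨f, hf⟩ := dot_lin (A (Fin.last a))
  have hmem : ∀ z, z ∈ LinearMap.ker A.mulVecLin ↔ z ∈ LinearMap.ker B.mulVecLin ∧ f z = 0 := by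
    intro z
    rw [LinearMap.mem_ker, LinearMap.mem_ker, hf, Matrix.mulVecLin_apply, Matrix.mulVecLin_apply]
    constructor
    · intro h
      exact ⟨funext fun i => congrFun h i.castSucc, congrFun h (Fin.last a)⟩
    · rintro ⟨h1, h2⟩
      funext i
      refine Fin.lastCases ?_ (fun i => ?_) i
      · exact h2
      · exact congrFun h1 i
  split_ifs with hw
  · have h1 : LinearMap.ker A.mulVecLin = LinearMap.ker B.mulVecLin := by
      ext z
      rw [hmem]
      refine ⟨fun h => h.1, fun h => ⟨h, ?_⟩⟩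
      have h2 : Matrix.mulVec (kp a B) z = z := kp_fix B (by simpa using h)
      rw [hf, ← h2, Matrix.dotProduct_mulVec, hw, zero_dotProduct]
    rw [h1, add_zero]
  · set W := LinearMap.ker B.mulVecLin with hW
    have h3 : LinearMap.ker A.mulVecLin = (LinearMap.ker (f.comp W.subtype)).map W.subtype := by
      ext z
      rw [hmem, Submodule.mem_map]
      constructor
      · rintro ⟨h1, h2⟩
        exact ⟨⟨z, h1⟩, h2, rfl⟩
      · rintro ⟨y, hy, rfl⟩
        exact ⟨y.2, hy⟩
    rw [h3, Submodule.finrank_map_subtype_eq]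
    have h4 := LinearMap.finrank_range_add_finrank_ker (f.comp W.subtype)
    have h5 : LinearMap.range (f.comp W.subtype) = ⊤ := by
      obtain ⟨j, hj⟩ := Function.ne_iff.1 hw
      have hcol : (fun l => kp a B l j) ∈ W := by
        rw [hW, LinearMap.mem_ker, Matrix.mulVecLin_apply]
        ext l
        have h1 : (B * kp a B) l j = 0 := by rw [kp_mul]; rfl
        exact h1
      have hval : (f.comp W.subtype) ⟨_, hcol⟩ ≠ 0 := by
        have : (f.comp W.subtype) ⟨_, hcol⟩ = f (fun l => kp a B l j) := rfl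
        rw [this, hf]
        exact hj
      rw [LinearMap.range_eq_top]
      intro c
      refine ⟨(c * ((f.comp W.subtype) ⟨_, hcol⟩)⁻¹) • ⟨_, hcol⟩, ?_⟩
      rw [map_smul, smul_eq_mul, mul_assoc, inv_mul_cancel₀ hval, mul_one]
    rw [h5, finrank_top, Module.finrank_self] at h4
    omega

theorem rk_eq {a b : ℕ} (A : Matrix (Fin a) (Fin b) k) : A.rank = rk a A := by
  have key : ∀ (a : ℕ) (A : Matrix (Fin a) (Fin b) k),
      rk a A + Module.finrank k (LinearMap.ker A.mulVecLin) = b := by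
    intro a
    induction a with
    | zero =>
      intro A
      have h1 : LinearMap.ker A.mulVecLin = ⊤ := by
        rw [LinearMap.ker_eq_top]
        ext x i
        exact i.elim0
      rw [h1, finrank_top, Module.finrank_fin_fun]
      exact Nat.zero_add b
    | succ a ih =>
      intro A
      have h1 := ih (fun i => A i.castSucc)
      have h2 := ker_step A
      have h3 : rk (a + 1) A = rk a (fun i => A i.castSucc) +
        if Matrix.vecMul (A (Fin.last a)) (kp a fun i => A i.castSucc) = 0 then 0 else 1 := rfl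
      rw [h3]
      omega
  have h1 := LinearMap.finrank_range_add_finrank_ker A.mulVecLin
  rw [Module.finrank_fin_fun] at h1
  have h2 := key a A
  have h3 : A.rank = Module.finrank k (LinearMap.range A.mulVecLin) := rfl
  omega

end Pool.Agent.PRc
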