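import Pool.Agent.PRc.Lin
import Pool.Agent.PRc.Poly

/-!
# Package PRc-LinPR: linear algebra of bounded size is piecewise rational

Complete proofs by the calculus `PRF.sum`, `PRF.mul`, `PRF.iteD`, `PRD.all`, ... (a matrix is given by
its entries). `kp_pr`: induction on `a`. `rk_pr`: by induction on `a` for all `e`.
`solv_pr`: by `solv_iff`; `ker_pr`: by `ker_iff`.
-/

set_option autoImplicit false

noncomputable section

namespace Pool.Agent.PRc

open scoped Classical

variable {ι : Type}

/-- families of matrices -/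
abbrev FM (ι : Type) (a b : ℕ) : Type 1 :=
  ∀ (k : Type) [Field k], (ι → k) → Matrix (Fin a) (Fin b) k

/-- families of vectors -/
abbrev FV (ι : Type) (a : ℕ) : Type 1 := ∀ (k : Type) [Field k], (ι → k) → Fin a → k

private theorem iteD' {P : FR ι} {G H : FF ι} (hP : PRD P) (hG : PRF G) (hH : PRF H)
    {inst : ∀ (k : Type) [Field k] (x : ι → k), Decidable (P k x)} :
    PRF (fun k _ x => @ite k (P k x) (inst k x) (G k x) (H k x)) := by
  refine PRF.congr (PRF.iteD hP hG hH) fun k _ x => ?_
  by_cases h : P k x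
  · rw [if_pos h, if_pos h]
  · rw [if_neg h, if_neg h]

private theorem vm_pr {a b : ℕ} {r : FV ι a} {K : FM ι a b} (hr : ∀ j, PRF (fun k _ x => r k x j))
    (hK : ∀ i j, PRF (fun k _ x => K k x i j)) (l : Fin b) :
    PRF (fun k _ x => Matrix.vecMul (r k x) (K k x) l) :=
  PRF.sum Finset.univ (F := fun i k _ x => r k x i * K k x i l) fun i _ =>
    PRF.mul (hr i) (hK i l)

private theorem first_pr {b : ℕ} {w : FV ι b} (hw : ∀ j, PRF (fun k _ x => w k x j))
    (j : Fin b) : PRD (fun k _ x => w k x j ≠ 0 ∧ ∀ j' < j, w k x j' = 0) := by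
  refine PRD.and (PRD.not (PRD.eq (hw j) PRF.zero)) ?_
  refine PRD.congr (PRD.all (Finset.univ.filter fun j' : Fin b => j' < j)
    (P := fun j' k _ x => w k x j' = 0) fun j' _ => PRD.eq (hw j') PRF.zero) fun k _ x => ?_
  constructor
  · intro h j' hj'
    exact h j' (Finset.mem_filter.1 hj').2
  · intro h j' hj'
    exact h j' (Finset.mem_filter.2 ⟨Finset.mem_univ _, hj'⟩)

theorem kst_pr {b : ℕ} {K : FM ι b b} {r : FV ι b} (hK : ∀ i j, PRF (fun k _ x => K k x i j))
    (hr : ∀ j, PRF (fun k _ x => r k x j)) (i j : Fin b) :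
    PRF (fun k _ x => kst (K k x) (r k x) i j) := by
  have hw := vm_pr hr hK
  exact PRF.sub (hK i j) (PRF.sum Finset.univ
    (F := fun l k _ x => if Matrix.vecMul (r k x) (K k x) l ≠ 0 ∧
      ∀ j' < l, Matrix.vecMul (r k x) (K k x) j' = 0 then
        K k x i l * Matrix.vecMul (r k x) (K k x) j / Matrix.vecMul (r k x) (K k x) l else 0)
    fun l _ => iteD' (first_pr (w := fun k _ x => Matrix.vecMul (r k x) (K k x)) hw l)
      (PRF.div (PRF.mul (hK i l) (hw j)) (hw l)) PRF.zero)

theorem kp_pr {a b : ℕ} {A : FM ι a b} (hA : ∀ i j, PRF (fun k _ x => A k x i j))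
    (i j : Fin b) : PRF (fun k _ x => kp a (A k x) i j) := by
  induction a generalizing i j with
  | zero =>
    by_cases h : i = j
    · refine PRF.congr PRF.one fun k _ x => ?_
      rw [kp, h, Matrix.one_apply_eq]
    · refine PRF.congr PRF.zero fun k _ x => ?_
      rw [kp, Matrix.one_apply_ne h]
  | succ a ih =>
    exact kst_pr (K := fun k _ x => kp a fun i => A k x i.castSucc)
      (r := fun k _ x => A k x (Fin.last a))
      (fun i j => ih (A := fun k _ x i => A k x i.castSucc) (fun i j => hA _ j) i j)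
      (fun j => hA _ j) i j

private theorem aug_pr {a b : ℕ} {A : FM ι a b} {y : FV ι a}
    (hA : ∀ i j, PRF (fun k _ x => A k x i j)) (hy : ∀ i, PRF (fun k _ x => y k x i))
    (i : Fin a) (j : Fin (b + 1)) : PRF (fun k _ x => aug (A k x) (y k x) i j) := by
  refine Fin.cases ?_ (fun j => ?_) j
  · exact PRF.neg (hy i)
  · exact hA i j

theorem lsv_pr {a b : ℕ} {A : FM ι a b} {y : FV ι a} (hA : ∀ i j, PRF (fun k _ x => A k x i j))
    (hy : ∀ i, PRF (fun k _ x => y k x i)) (i : Fin b) :
    PRF (fun k _ x => lsv (A k x) (y k x) i) := by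
  have h := kp_pr (A := fun k _ x => aug (A k x) (y k x)) (aug_pr hA hy)
  exact PRF.sum Finset.univ
    (F := fun j k _ x => if kp a (aug (A k x) (y k x)) 0 j ≠ 0 ∧
      ∀ j' < j, kp a (aug (A k x) (y k x)) 0 j' = 0 then
        kp a (aug (A k x) (y k x)) i.succ j / kp a (aug (A k x) (y k x)) 0 j else 0)
    fun j _ => iteD' (first_pr (w := fun k _ x => kp a (aug (A k x) (y k x)) 0) (h 0) j)
      (PRF.div (h i.succ j) (h 0 j)) PRF.zero

theorem solv_pr {a b : ℕ} {A : FM ι a b} {y : FV ι a} (hA : ∀ i j, PRF (fun k _ x => A k x i j))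
    (hy : ∀ i, PRF (fun k _ x => y k x i)) :
    PRD (fun k _ x => ∃ z, Matrix.mulVec (A k x) z = y k x) := by
  have h := kp_pr (A := fun k _ x => aug (A k x) (y k x)) (aug_pr hA hy)
  refine PRD.congr (PRD.any Finset.univ
    (P := fun j k _ x => kp a (aug (A k x) (y k x)) 0 j ≠ 0)
    fun j _ => PRD.not (PRD.eq (h 0 j) PRF.zero)) fun k _ x => ?_
  rw [solv_iff]
  simp only [Finset.mem_univ, true_and]

theorem ker_pr {a b : ℕ} {A : FM ι a b} (hA : ∀ i j, PRF (fun k _ x => A k x i j)) :
    PRD (fun k _ x => ∃ z, z ≠ 0 ∧ Matrix.mulVec (A k x) z = 0) := by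
  have h := kp_pr hA
  refine PRD.congr (PRD.any Finset.univ
    (P := fun (i : Fin b) k _ x => ∃ j ∈ Finset.univ, kp a (A k x) i j ≠ 0)
    fun i _ => PRD.any Finset.univ (P := fun j k _ x => kp a (A k x) i j ≠ 0)
      fun j _ => PRD.not (PRD.eq (h i j) PRF.zero)) fun k _ x => ?_
  rw [ker_iff]
  simp only [Finset.mem_univ, true_and]

private theorem rk_pr' {a b : ℕ} {A : FM ι a b} (hA : ∀ i j, PRF (fun k _ x => A k x i j))
    (e : ℕ) : PRD (fun k _ x => rk a (A k x) = e) := by
  induction a generalizing e with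
  | zero =>
    by_cases h : (0 : ℕ) = e
    · refine PRD.congr PRD.true fun k _ x => ?_
      rw [rk]
      exact iff_of_true h trivial
    · refine PRD.congr PRD.false fun k _ x => ?_
      rw [rk]
      exact iff_of_false h not_false
  | succ a ih =>
    have hA' : ∀ (i : Fin a) (j : Fin b),
        PRF (fun k _ x => (fun i => A k x (Fin.castSucc i)) i j) := fun i j => hA _ j
    have h1 := ih (A := fun k _ x i => A k x (Fin.castSucc i)) hA'
    have h2 := kp_pr (A := fun k _ x i => A k x (Fin.castSucc i)) hA'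
    have h3 := vm_pr (r := fun k _ x => A k x (Fin.last a)) (fun j => hA _ j) h2
    have h4 : PRD (fun k _ x =>
        Matrix.vecMul (A k x (Fin.last a)) (kp a fun i => A k x (Fin.castSucc i)) = 0) := by
      refine PRD.congr (PRD.all Finset.univ (P := fun l k _ x =>
        Matrix.vecMul (A k x (Fin.last a)) (kp a fun i => A k x (Fin.castSucc i)) l = 0)
        fun l _ => PRD.eq (h3 l) PRF.zero) fun k _ x => ?_
      constructor
      · intro h l _
        rw [h]
        rfl
      · intro h
        exact funext fun l => h l (Finset.mem_univ l)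
    have h5 : PRD (fun k _ x => ∃ e' ∈ Finset.range e,
        rk a (fun i => A k x (Fin.castSucc i)) = e' ∧ e' + 1 = e) := by
      refine PRD.any _ (P := fun e' k _ x =>
        rk a (fun i => A k x (Fin.castSucc i)) = e' ∧ e' + 1 = e) fun e' _ => ?_
      refine PRD.and (h1 e') ?_
      by_cases h : e' + 1 = e
      · exact PRD.congr PRD.true fun k _ x => iff_of_true h trivial
      · exact PRD.congr PRD.false fun k _ x => iff_of_false h not_false
    refine PRD.congr (PRD.or (PRD.and h4 (h1 e)) (PRD.and (PRD.not h4) h5)) fun k _ x => ?_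
    rw [rk]
    by_cases h : Matrix.vecMul (A k x (Fin.last a)) (kp a fun i => A k x (Fin.castSucc i)) = 0
    · rw [if_pos h, add_zero]
      constructor
      · intro h6
        exact Or.inl ⟨h, h6⟩
      · rintro (h6 | h6)
        · exact h6.2
        · exact absurd h h6.1
    · rw [if_neg h]
      constructor
      · intro h6
        exact Or.inr ⟨h, _, Finset.mem_range.2 (by omega), rfl, h6⟩
      · rintro (h6 | ⟨_, e', _, h7, h8⟩)
        · exact absurd h6.1 h
        · rw [h7]
          exact h8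

theorem rk_pr {a b : ℕ} {A : FM ι a b} (hA : ∀ i j, PRF (fun k _ x => A k x i j)) (e : ℕ) :
    PRD (fun k _ x => (A k x).rank = e) :=
  PRD.congr (rk_pr' hA e) fun k _ x => by rw [rk_eq]

theorem det_pr {a : ℕ} {A : FM ι a a} (hA : ∀ i j, PRF (fun k _ x => A k x i j)) :
    PRF (fun k _ x => (A k x).det) := by
  refine PRF.congr (PRF.sum Finset.univ (F := fun (σ : Equiv.Perm (Fin a)) k _ x =>
    ((Equiv.Perm.sign σ : ℤ) : k) * ∏ i ∈ Finset.univ, A k x (σ i) i) fun σ _ =>
      PRF.mul (PRF.int _) (PRF.prod Finset.univ (F := fun i k _ x => A k x (σ i) i)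
        fun i _ => hA _ i)) fun k _ x => ?_
  rw [Matrix.det_apply']

end Pool.Agent.PRc
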